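import Pool.Agent.Work.MP_1d0aa8_co.SF.Dlem

/-!
# MP_1d0aa8_co, short intersections: progressions with at most six terms
-/

set_option autoImplicit false

namespace Pool.Agent.Work.MP_1d0aa8_co.SF

open Finset

theorem tot_full {R : ℤ → ℤ → Prop} {X : Finset ℤ} (hX : IsAP X) (h6 : X.card ≤ 6)
    (hR : ∀ x e : ℤ, 1 ≤ e → In 5 X x e → R x e) :
    2 * (tot R X : ℤ) = ((X.card : ℤ) - 1) * ((X.card : ℤ) - 2) := by
  obtain ⟨a, d, m, hd, hm, rfl⟩ := hX
  rw [card_apz hd] at h6 ⊢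
  have h1 : P R 5 (apz a d m) = P Tr 5 (apz a d m) := by
    ext p
    rw [mem_P (by norm_num), mem_P (by norm_num)]
    exact ⟨fun h => ⟨h.1, h.2.1, trivial⟩, fun h => ⟨h.1, h.2.1, hR _ _ h.1 h.2.1⟩⟩
  unfold tot
  rw [h1, P_apz (by norm_num) hd, P_apz (by norm_num) hd, P_apz (by norm_num) hd]
  interval_cases m <;> decide

theorem tot_six {R : ℤ → ℤ → Prop} {a d : ℤ} (hd : 1 ≤ d) (hR : ¬ R a d) :
    tot R (apz a d 6) ≤ 9 := by
  have h5 : (P R 5 (apz a d 6)).card = 0 := by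
    rw [card_eq_zero, eq_empty_iff_forall_notMem]
    intro p hp
    rw [mem_P (by norm_num)] at hp
    obtain ⟨h1, h2, h3⟩ := hp
    obtain ⟨u, v, hv1, huv, e1, e2⟩ := idx_of (by norm_num) hd h1 h2
    have hv : v = 1 := by omega
    subst hv
    have hu : u = 0 := by omega
    subst hu
    rw [e1, e2] at h3
    apply hR
    simpa using h3
  unfold tot
  rw [h5, P_apz (by norm_num) hd, P_apz (by norm_num) hd]
  decide

/-- Closure: a progression contains all steps between two of its points, one of which has a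
neighbour at distance `g` in it. -/
theorem closure_ap {X : Finset ℤ} (hX : IsAP X) {u g k j : ℤ} (h0 : u ∈ X) (h1 : u + g ∈ X)
    (hk : u + k * g ∈ X) (hj : 0 ≤ j) (hjk : j ≤ k) : u + j * g ∈ X := by
  obtain ⟨a, d, m, hd, hm, rfl⟩ := hX
  obtain ⟨p, hp, hp2⟩ := mem_apz.1 h0
  obtain ⟨q, hq, hq2⟩ := mem_apz.1 h1
  obtain ⟨r, hr, hr2⟩ := mem_apz.1 hk
  have e1 : g = ((q : ℤ) - p) * d := by linear_combination hp2 - hq2
  have e2 : (r : ℤ) = p + k * ((q : ℤ) - p) := by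
    apply mul_right_cancel₀ (show d ≠ 0 by omega)
    rw [e1] at hr2
    linear_combination hr2 - hp2
  have hr0 : (0 : ℤ) ≤ r := by positivity
  have hp0 : (0 : ℤ) ≤ p := by positivity
  have hr' : (r : ℤ) < m := by exact_mod_cast hr
  have hp' : (p : ℤ) < m := by exact_mod_cast hp
  obtain ⟨s, hs⟩ : ∃ s : ℤ, s = p + j * ((q : ℤ) - p) := ⟨_, rfl⟩
  have hs0 : 0 ≤ s ∧ s < m := by
    rcases le_total 0 ((q : ℤ) - p) with h | h
    · have h3 : 0 ≤ j * ((q : ℤ) - p) := mul_nonneg hj h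
      have h4 : j * ((q : ℤ) - p) ≤ k * ((q : ℤ) - p) := mul_le_mul_of_nonneg_right hjk h
      omega
    · have h3 : j * ((q : ℤ) - p) ≤ 0 := mul_nonpos_of_nonneg_of_nonpos hj h
      have h4 : k * ((q : ℤ) - p) ≤ j * ((q : ℤ) - p) := mul_le_mul_of_nonpos_right hjk h
      omega
  rw [mem_apz]
  refine ⟨s.toNat, by omega, ?_⟩
  rw [Int.toNat_of_nonneg hs0.1, hs, e1]
  linear_combination hp2

end Pool.Agent.Work.MP_1d0aa8_co.SF
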