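import Mathlib

/-!
# MP_1d0aa8_co, short intersections: counting short progressions in a finite set of integers

`P R k A` is the set of pairs `(x, d)`, `d ≥ 1`, with `x, x + d, …, x + k d ∈ A` and `R x d`.
-/

set_option autoImplicit false

namespace Pool.Agent.Work.MP_1d0aa8_co.SF

open Finset
open scoped Classical

/-- `x, x + d, …, x + k d` all lie in `A`. -/
def In (k : ℕ) (A : Finset ℤ) (x d : ℤ) : Prop := ∀ i : ℕ, i ≤ k → x + (i : ℤ) * d ∈ A

/-- No condition. -/
def Tr (_ _ : ℤ) : Prop := True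

/-- The pairs (first term, difference) of the progressions with `k + 1` terms in `A` which
satisfy `R`. -/
noncomputable def P (R : ℤ → ℤ → Prop) (k : ℕ) (A : Finset ℤ) : Finset (ℤ × ℤ) :=
  ((A ×ˢ A).image (fun p => (p.1, p.2 - p.1))).filter
    (fun p => 1 ≤ p.2 ∧ In k A p.1 p.2 ∧ R p.1 p.2)

theorem mem_P {R : ℤ → ℤ → Prop} {k : ℕ} (hk : 1 ≤ k) {A : Finset ℤ} {p : ℤ × ℤ} :
    p ∈ P R k A ↔ 1 ≤ p.2 ∧ In k A p.1 p.2 ∧ R p.1 p.2 := by
  unfold P
  rw [mem_filter]
  refine ⟨fun h => h.2, fun h => ⟨?_, h⟩⟩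
  rw [mem_image]
  refine ⟨(p.1, p.1 + p.2), ?_, ?_⟩
  · rw [mem_product]
    refine ⟨?_, ?_⟩
    · have := h.2.1 0 (Nat.zero_le k)
      simpa using this
    · have := h.2.1 1 hk
      simpa using this
  · ext
    · rfl
    · simp

/-- No seven term progression in `A` has its first six or its last six terms in `R`. -/
def Ok (R : ℤ → ℤ → Prop) (A : Finset ℤ) : Prop :=
  ∀ x d : ℤ, 1 ≤ d → In 6 A x d → ¬ R x d ∧ ¬ R (x + d) d

/-- Number of progressions with 3, 4 or (in `R`) 6 terms. -/
noncomputable def tot (R : ℤ → ℤ → Prop) (A : Finset ℤ) : ℕ :=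
  (P Tr 2 A).card + (P Tr 3 A).card + (P R 5 A).card

/-- The differences of the progressions in `A` with first term `m`. -/
noncomputable def S (R : ℤ → ℤ → Prop) (k : ℕ) (A : Finset ℤ) (m : ℤ) : Finset ℤ :=
  (A.image (fun y => y - m)).filter (fun d => 1 ≤ d ∧ In k A m d ∧ R m d)

theorem mem_S {R : ℤ → ℤ → Prop} {k : ℕ} (hk : 1 ≤ k) {A : Finset ℤ} {m d : ℤ} :
    d ∈ S R k A m ↔ 1 ≤ d ∧ In k A m d ∧ R m d := by
  unfold S
  rw [mem_filter]
  refine ⟨fun h => h.2, fun h => ⟨?_, h⟩⟩
  rw [mem_image]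
  refine ⟨m + d, ?_, by ring⟩
  have := h.2.1 1 hk
  simpa using this

theorem In.mono {k : ℕ} {A B : Finset ℤ} {x d : ℤ} (h : In k A x d) (hAB : A ⊆ B) : In k B x d :=
  fun i hi => hAB (h i hi)

theorem Ok.mono {R : ℤ → ℤ → Prop} {A B : Finset ℤ} (h : Ok R B) (hAB : A ⊆ B) : Ok R A :=
  fun x d hd hA => h x d hd (hA.mono hAB)

theorem P_erase_min {R : ℤ → ℤ → Prop} {k : ℕ} (hk : 1 ≤ k) {A : Finset ℤ} {m : ℤ}
    (hm : ∀ y ∈ A, m ≤ y) :
    (P R k A).card = (P R k (A.erase m)).card + (S R k A m).card := by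
  have h1 : P R k A = P R k (A.erase m) ∪ (S R k A m).image (fun d => (m, d)) := by
    ext p
    rw [mem_union, mem_P hk, mem_P hk, mem_image]
    constructor
    · rintro ⟨h1, h2, h2'⟩
      by_cases hp : p.1 = m
      · right
        refine ⟨p.2, ?_, ?_⟩
        · rw [mem_S hk, ← hp]; exact ⟨h1, h2, h2'⟩
        · rw [← hp]
      · left
        refine ⟨h1, fun i hi => ?_, h2'⟩
        rw [mem_erase]
        refine ⟨?_, h2 i hi⟩
        have h3 : p.1 ∈ A := by
          have := h2 0 (Nat.zero_le k)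
          simpa using this
        have h4 := hm _ h3
        have h5 : m < p.1 := lt_of_le_of_ne h4 (fun h => hp h.symm)
        have h6 : (0 : ℤ) ≤ (i : ℤ) * p.2 := mul_nonneg (by positivity) (by omega)
        omega
    · rintro (⟨h1, h2, h2'⟩ | ⟨d, hd, rfl⟩)
      · exact ⟨h1, h2.mono (erase_subset _ _), h2'⟩
      · rw [mem_S hk] at hd
        exact hd
  rw [h1, card_union_of_disjoint, card_image_of_injective]
  · intro a b hab
    simpa using hab
  · rw [Finset.disjoint_left]
    intro p hp hq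
    rw [mem_P hk] at hp
    rw [mem_image] at hq
    obtain ⟨d, -, rfl⟩ := hq
    have := hp.2.1 0 (Nat.zero_le k)
    simp at this

/-- Reflection. -/
def refl (A : Finset ℤ) : Finset ℤ := A.image (fun y => -y)

/-- Reflection of the condition on six term progressions. -/
def rR (R : ℤ → ℤ → Prop) (x d : ℤ) : Prop := R (-x - 5 * d) d

theorem mem_refl {A : Finset ℤ} {y : ℤ} : y ∈ refl A ↔ -y ∈ A := by
  unfold refl
  rw [mem_image]
  constructor
  · rintro ⟨a, ha, rfl⟩; simpa using ha
  · intro h; exact ⟨-y, h, by simp⟩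

theorem refl_card (A : Finset ℤ) : (refl A).card = A.card :=
  card_image_of_injective _ neg_injective

theorem In_refl {k : ℕ} {A : Finset ℤ} {x d : ℤ} :
    In k (refl A) x d ↔ In k A (-x - (k : ℤ) * d) d := by
  constructor
  · intro h i hi
    have h1 := h (k - i) (Nat.sub_le k i)
    rw [mem_refl] at h1
    rw [Nat.cast_sub hi] at h1
    have h2 : -(x + ((k : ℤ) - (i : ℤ)) * d) = -x - (k : ℤ) * d + (i : ℤ) * d := by ring
    rwa [h2] at h1
  · intro h i hi
    rw [mem_refl]
    have h1 := h (k - i) (Nat.sub_le k i)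
    rw [Nat.cast_sub hi] at h1
    have h2 : -x - (k : ℤ) * d + ((k : ℤ) - (i : ℤ)) * d = -(x + (i : ℤ) * d) := by ring
    rwa [h2] at h1

theorem P_refl {R R' : ℤ → ℤ → Prop} {k : ℕ} (hk : 1 ≤ k)
    (hR : ∀ x d, R' x d ↔ R (-x - (k : ℤ) * d) d) (A : Finset ℤ) :
    (P R' k (refl A)).card = (P R k A).card := by
  apply Finset.card_bij (fun p _ => (-p.1 - (k : ℤ) * p.2, p.2))
  · intro p hp
    rw [mem_P hk] at hp ⊢
    exact ⟨hp.1, In_refl.1 hp.2.1, (hR _ _).1 hp.2.2⟩
  · intro p _ q _ h
    simp only [Prod.mk.injEq] at h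
    obtain ⟨h1, h2⟩ := h
    rw [h2] at h1
    ext
    · linarith
    · exact h2
  · intro p hp
    rw [mem_P hk] at hp
    refine ⟨(-p.1 - (k : ℤ) * p.2, p.2), ?_, ?_⟩
    · rw [mem_P hk]
      have h2 : -(-p.1 - (k : ℤ) * p.2) - (k : ℤ) * p.2 = p.1 := by ring
      refine ⟨hp.1, ?_, ?_⟩
      · rw [In_refl]
        simpa [h2] using hp.2.1
      · rw [hR]
        simpa [h2] using hp.2.2
    · ext
      · simp
      · rfl

theorem Ok_refl {R : ℤ → ℤ → Prop} {A : Finset ℤ} (h : Ok R A) : Ok (rR R) (refl A) := by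
  intro x d hd hx
  have h1 := h _ d hd (In_refl.1 hx)
  unfold rR
  push_cast at h1
  refine ⟨?_, ?_⟩
  · rw [show -x - 5 * d = -x - 6 * d + d by ring]; exact h1.2
  · rw [show -(x + d) - 5 * d = -x - 6 * d by ring]; exact h1.1

theorem refl_erase (A : Finset ℤ) (m : ℤ) : refl (A.erase m) = (refl A).erase (-m) := by
  ext y
  rw [mem_refl, mem_erase, mem_erase, mem_refl]
  constructor
  · rintro ⟨h1, h2⟩; exact ⟨fun h => h1 (by rw [h]; simp), h2⟩
  · rintro ⟨h1, h2⟩; exact ⟨fun h => h1 (by rw [← h]; simp), h2⟩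

theorem tot_refl (R : ℤ → ℤ → Prop) (A : Finset ℤ) : tot (rR R) (refl A) = tot R A := by
  unfold tot
  rw [P_refl (R := Tr) (R' := Tr) (by norm_num) (fun _ _ => Iff.rfl),
    P_refl (R := Tr) (R' := Tr) (by norm_num) (fun _ _ => Iff.rfl),
    P_refl (R := R) (R' := rR R) (by norm_num) (fun _ _ => by unfold rR; push_cast; rfl)]

/-- The number of progressions with 3, 4 or 6 terms and first term `m`. -/
noncomputable def ends (R : ℤ → ℤ → Prop) (A : Finset ℤ) (m : ℤ) : ℕ :=
  (S Tr 2 A m).card + (S Tr 3 A m).card + (S R 5 A m).card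

theorem tot_erase_min {R : ℤ → ℤ → Prop} {A : Finset ℤ} {m : ℤ} (hm : ∀ y ∈ A, m ≤ y) :
    tot R A = tot R (A.erase m) + ends R A m := by
  unfold tot ends
  rw [P_erase_min (R := Tr) (k := 2) (by norm_num) hm,
    P_erase_min (R := Tr) (k := 3) (by norm_num) hm,
    P_erase_min (R := R) (k := 5) (by norm_num) hm]
  omega

/-- The left count: bound for the number of progressions starting at the minimum. -/
theorem ends_le {R : ℤ → ℤ → Prop} {A : Finset ℤ} {m M : ℤ} (hA : Ok R A)
    (hM : ∀ y ∈ A, y ≤ m + M) :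
    ends R A m ≤ (A.filter (fun y => m < y ∧ 5 * (y - m) ≤ 3 * M)).card +
      (A.filter (fun y => m < y ∧ 3 * (y - m) ≤ M)).card := by
  have h3 : (S Tr 3 A m).card ≤ (A.filter (fun y => m < y ∧ 3 * (y - m) ≤ M)).card := by
    apply Finset.card_le_card_of_injOn (fun d => m + d)
    · intro d hd
      rw [mem_coe, mem_S (by norm_num)] at hd
      rw [mem_coe, mem_filter]
      beta_reduce
      refine ⟨by simpa using hd.2.1 1 (by norm_num), by omega, ?_⟩
      have := hM _ (hd.2.1 3 (by norm_num))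
      push_cast at this
      linarith
    · intro a _ b _ h
      simpa using h
  have h25 : (S Tr 2 A m).card + (S R 5 A m).card ≤
      (A.filter (fun y => m < y ∧ 5 * (y - m) ≤ 3 * M)).card := by
    have h1 : (S R 5 A m).card = ((S R 5 A m).image (fun d => 3 * d)).card := by
      rw [card_image_of_injective]
      intro a b hab
      simp only at hab
      omega
    rw [h1, ← card_union_of_disjoint]
    · apply Finset.card_le_card_of_injOn (fun d => m + d)
      · intro d hd
        rw [mem_coe, mem_union, mem_image] at hd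
        rw [mem_coe, mem_filter]
        beta_reduce
        rcases hd with hd | ⟨e, he, rfl⟩
        · rw [mem_S (by norm_num)] at hd
          refine ⟨by simpa using hd.2.1 1 (by norm_num), by omega, ?_⟩
          have := hM _ (hd.2.1 2 (by norm_num))
          push_cast at this
          have h5 := hd.1
          linarith
        · rw [mem_S (by norm_num)] at he
          refine ⟨by simpa using he.2.1 3 (by norm_num), by omega, ?_⟩
          have := hM _ (he.2.1 5 (by norm_num))
          push_cast at this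
          linarith
      · intro a _ b _ h
        simpa using h
    · rw [Finset.disjoint_left]
      intro d hd hd'
      rw [mem_image] at hd'
      obtain ⟨e, he, rfl⟩ := hd'
      rw [mem_S (by norm_num)] at hd he
      refine (hA m e he.1 ?_).1 he.2.2
      intro i hi
      by_cases h6 : i = 6
      · subst h6
        have := hd.2.1 2 (by norm_num)
        push_cast at this ⊢
        rw [show m + 6 * e = m + 2 * (3 * e) by ring]
        exact this
      · exact he.2.1 i (by omega)
  unfold ends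
  omega

end Pool.Agent.Work.MP_1d0aa8_co.SF
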