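import Pool.Agent.Work.MP_1d0aa8_co.SF.Cnt

/-!
# MP_1d0aa8_co, short intersections: the end removal lemma

A finite set with `n` elements has at most `(n-1)(n-2)/2` progressions with 3, 4 or (in `R`) 6
terms, with equality only for progressions with at most six terms, if no 7-term progression in it
has its first or last six terms in `R`.
-/

set_option autoImplicit false

namespace Pool.Agent.Work.MP_1d0aa8_co.SF

open Finset
open scoped Classical

/-- The progression `a, a + d, …` with `m` terms. -/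
def apz (a d : ℤ) (m : ℕ) : Finset ℤ := (range m).image (fun i : ℕ => a + (i : ℤ) * d)

theorem mem_apz {a d y : ℤ} {m : ℕ} : y ∈ apz a d m ↔ ∃ i : ℕ, i < m ∧ a + (i : ℤ) * d = y := by
  unfold apz
  simp only [mem_image, mem_range]

/-- Nonempty arithmetic progressions. -/
def IsAP (A : Finset ℤ) : Prop := ∃ (a d : ℤ) (m : ℕ), 1 ≤ d ∧ 1 ≤ m ∧ A = apz a d m

theorem card_apz {a d : ℤ} (hd : 1 ≤ d) (m : ℕ) : (apz a d m).card = m := by
  unfold apz
  rw [card_image_of_injective, card_range]
  intro i j h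
  have h1 : (i : ℤ) * d = (j : ℤ) * d := by simpa using h
  have h2 := mul_right_cancel₀ (by omega : d ≠ 0) h1
  exact_mod_cast h2

theorem IsAP_refl {A : Finset ℤ} (h : IsAP A) : IsAP (refl A) := by
  obtain ⟨a, d, m, hd, hm, rfl⟩ := h
  refine ⟨-(a + ((m - 1 : ℕ) : ℤ) * d), d, m, hd, hm, ?_⟩
  ext y
  rw [mem_refl, mem_apz, mem_apz]
  constructor
  · rintro ⟨i, hi, h⟩
    refine ⟨m - 1 - i, by omega, ?_⟩
    have h1 : ((m - 1 - i : ℕ) : ℤ) = ((m - 1 : ℕ) : ℤ) - i := Nat.cast_sub (by omega)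
    rw [h1]
    linear_combination -h
  · rintro ⟨i, hi, h⟩
    refine ⟨m - 1 - i, by omega, ?_⟩
    have h1 : ((m - 1 - i : ℕ) : ℤ) = ((m - 1 : ℕ) : ℤ) - i := Nat.cast_sub (by omega)
    rw [h1]
    linear_combination -h

theorem refl_refl (A : Finset ℤ) : refl (refl A) = A := by
  ext y; rw [mem_refl, mem_refl, neg_neg]

theorem IsAP_refl_iff {A : Finset ℤ} : IsAP (refl A) ↔ IsAP A :=
  ⟨fun h => by have := IsAP_refl h; rwa [refl_refl] at this, IsAP_refl⟩

theorem card_inner {A : Finset ℤ} {m0 m1 : ℤ} (h0 : m0 ∈ A) (h1 : m1 ∈ A)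
    (hmin : ∀ y ∈ A, m0 ≤ y) (hmax : ∀ y ∈ A, y ≤ m1) (hlt : m0 < m1) :
    (A.filter (fun y => m0 < y ∧ y < m1)).card + 2 = A.card := by
  have h : A.filter (fun y => m0 < y ∧ y < m1) = (A.erase m0).erase m1 := by
    ext y
    rw [mem_filter, mem_erase, mem_erase]
    constructor
    · rintro ⟨h1, h2, h3⟩; exact ⟨by omega, by omega, h1⟩
    · rintro ⟨h1, h2, h3⟩
      have := hmin y h3
      have := hmax y h3
      exact ⟨h3, by omega, by omega⟩
  rw [h, card_erase_of_mem, card_erase_of_mem h0]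
  · have : 2 ≤ A.card := by
      have h2 : ({m0, m1} : Finset ℤ) ⊆ A := by
        intro y hy
        simp only [mem_insert, mem_singleton] at hy
        rcases hy with rfl | rfl <;> assumption
      have h3 := card_le_card h2
      rwa [card_pair hlt.ne] at h3
    omega
  · rw [mem_erase]; exact ⟨hlt.ne', h1⟩

theorem card_filter_refl (A : Finset ℤ) (m M c e : ℤ) :
    ((refl A).filter (fun y => -m < y ∧ c * (y - -m) ≤ e * M)).card =
      (A.filter (fun y => y < m ∧ c * (m - y) ≤ e * M)).card := by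
  apply Finset.card_bij (fun y _ => -y)
  · intro y hy
    rw [mem_filter, mem_refl] at hy
    rw [mem_filter]
    refine ⟨hy.1, by omega, ?_⟩
    have := hy.2.2
    rw [show m - -y = y - -m by ring]
    exact this
  · intro a _ b _ h
    simpa using h
  · intro y hy
    rw [mem_filter] at hy
    refine ⟨-y, ?_, by simp⟩
    rw [mem_filter, mem_refl, neg_neg]
    refine ⟨hy.1, by omega, ?_⟩
    rw [show -y - -m = m - y by ring]
    exact hy.2.2

/-- THE TWO ENDS: together at most `2 (n - 2)` progressions with 3, 4 or 6 terms touch the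
ends. -/
theorem two_ends {R : ℤ → ℤ → Prop} {A : Finset ℤ} (hA : Ok R A) {m0 m1 : ℤ} (h0 : m0 ∈ A) (h1 : m1 ∈ A)
    (hmin : ∀ y ∈ A, m0 ≤ y) (hmax : ∀ y ∈ A, y ≤ m1) (hlt : m0 < m1) :
    ends R A m0 + ends (rR R) (refl A) (-m1) + 4 ≤ 2 * A.card := by
  have e1 := ends_le (m := m0) (M := m1 - m0) hA (fun y hy => by have := hmax y hy; omega)
  have e2 := ends_le (A := refl A) (m := -m1) (M := m1 - m0) (Ok_refl hA)
    (fun y hy => by rw [mem_refl] at hy; have := hmin _ hy; omega)
  have e3 := card_filter_refl A m1 (m1 - m0) 5 3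
  have e4 := card_filter_refl A m1 (m1 - m0) 3 1
  simp only [one_mul] at e4
  rw [e3, e4] at e2
  have e5 := card_inner h0 h1 hmin hmax hlt
  have key : (A.filter (fun y => m0 < y ∧ 5 * (y - m0) ≤ 3 * (m1 - m0))).card +
      (A.filter (fun y => m0 < y ∧ 3 * (y - m0) ≤ m1 - m0)).card +
      ((A.filter (fun y => y < m1 ∧ 5 * (m1 - y) ≤ 3 * (m1 - m0))).card +
      (A.filter (fun y => y < m1 ∧ 3 * (m1 - y) ≤ m1 - m0)).card) ≤
      2 * (A.filter (fun y => m0 < y ∧ y < m1)).card := by
    simp only [card_filter]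
    rw [← sum_add_distrib, ← sum_add_distrib, ← sum_add_distrib, mul_sum]
    apply sum_le_sum
    intro y hy
    have := hmin y hy
    have := hmax y hy
    split_ifs <;> omega
  omega

/-- Equality case at the left end. -/
theorem ends_lt {R : ℤ → ℤ → Prop} {A : Finset ℤ} (hA : Ok R A) {m0 : ℤ}
    (hmin : ∀ y ∈ A, m0 ≤ y)
    {a d : ℤ} {m : ℕ} (hd : 1 ≤ d) (hm : 2 ≤ m) (hm6 : m ≤ 6) (hE : A.erase m0 = apz a d m)
    (hne : a ≠ m0 + d) : ends R A m0 + 2 ≤ m := by
  have hin : ∀ y ∈ A, m0 < y → ∃ i : ℕ, i < m ∧ a + (i : ℤ) * d = y := by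
    intro y hy hlt
    rw [← mem_apz, ← hE, mem_erase]
    exact ⟨by omega, hy⟩
  have ha : m0 < a := by
    have h1 : a ∈ A.erase m0 := by
      rw [hE, mem_apz]; exact ⟨0, by omega, by simp⟩
    rw [mem_erase] at h1
    have := hmin a h1.2
    have := h1.1
    omega
  by_cases hS : S Tr 2 A m0 = ∅
  · have h3 : S Tr 3 A m0 = ∅ := by
      rw [eq_empty_iff_forall_notMem] at hS ⊢
      intro x hx
      rw [mem_S (by norm_num)] at hx
      apply hS x
      rw [mem_S (by norm_num)]
      exact ⟨hx.1, fun i hi => hx.2.1 i (by omega), trivial⟩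
    have h5 : S R 5 A m0 = ∅ := by
      rw [eq_empty_iff_forall_notMem] at hS ⊢
      intro x hx
      rw [mem_S (by norm_num)] at hx
      apply hS x
      rw [mem_S (by norm_num)]
      exact ⟨hx.1, fun i hi => hx.2.1 i (by omega), trivial⟩
    unfold ends
    rw [hS, h3, h5]
    simpa using hm
  · obtain ⟨δ, hδ⟩ := nonempty_iff_ne_empty.2 hS
    rw [mem_S (by norm_num)] at hδ
    obtain ⟨hδ1, hδ2, -⟩ := hδ
    obtain ⟨p, hp, hp2⟩ := hin (m0 + δ) (by simpa using hδ2 1 (by norm_num)) (by omega)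
    obtain ⟨q, hq, hq2⟩ := hin (m0 + 2 * δ) (by simpa using hδ2 2 (by norm_num)) (by omega)
    obtain ⟨u, hu⟩ : ∃ u : ℤ, u = q - 2 * p := ⟨_, rfl⟩
    have hm0 : m0 = a - u * d := by
      rw [hu]; linear_combination hq2 - (2 : ℤ) * hp2
    have hu1 : 1 ≤ u := by
      by_contra hcon
      have h1 : u ≤ 0 := by omega
      have h2 : u * d ≤ 0 := mul_nonpos_of_nonpos_of_nonneg h1 (by omega)
      omega
    have hu2 : 2 ≤ u := by
      by_contra hcon
      have h1 : u = 1 := by omega
      rw [h1] at hm0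
      apply hne
      omega
    obtain ⟨M, hM⟩ : ∃ M : ℤ, M = (u + (m - 1)) * d := ⟨_, rfl⟩
    have e1 := ends_le (m := m0) (M := M) hA (by
      intro y hy
      rcases eq_or_lt_of_le (hmin y hy) with h1 | h1
      · rw [← h1, hM]
        have : 0 ≤ (u + ((m : ℤ) - 1)) * d := mul_nonneg (by omega) (by omega)
        omega
      · obtain ⟨i, hi, hi2⟩ := hin y hy h1
        rw [← hi2, hM, hm0]
        have h2 : (i : ℤ) ≤ m - 1 := by omega
        nlinarith)
    have f1 : (A.filter (fun y => m0 < y ∧ 5 * (y - m0) ≤ 3 * M)).card ≤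
        ((range m).filter (fun i => 4 + 5 * i ≤ 3 * (m - 1))).card := by
      refine le_trans (card_le_card (t := ((range m).filter
        (fun i => 4 + 5 * i ≤ 3 * (m - 1))).image (fun i : ℕ => a + (i : ℤ) * d)) ?_)
        card_image_le
      intro y hy
      rw [mem_filter] at hy
      obtain ⟨hy1, hy2, hy3⟩ := hy
      obtain ⟨i, hi, rfl⟩ := hin y hy1 hy2
      rw [mem_image]
      refine ⟨i, ?_, rfl⟩
      rw [mem_filter, mem_range]
      refine ⟨hi, ?_⟩
      rw [hM, hm0] at hy3
      have h3 : (2 * u + 5 * i - 3 * ((m : ℤ) - 1)) * d ≤ 0 := by nlinarith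
      have h4 : 2 * u + 5 * i - 3 * ((m : ℤ) - 1) ≤ 0 := by
        by_contra hcon
        have : 0 < (2 * u + 5 * i - 3 * ((m : ℤ) - 1)) * d := mul_pos (by omega) (by omega)
        omega
      omega
    have f2 : (A.filter (fun y => m0 < y ∧ 3 * (y - m0) ≤ M)).card ≤
        ((range m).filter (fun i => 4 + 3 * i ≤ m - 1)).card := by
      refine le_trans (card_le_card (t := ((range m).filter
        (fun i => 4 + 3 * i ≤ m - 1)).image (fun i : ℕ => a + (i : ℤ) * d)) ?_)
        card_image_le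
      intro y hy
      rw [mem_filter] at hy
      obtain ⟨hy1, hy2, hy3⟩ := hy
      obtain ⟨i, hi, rfl⟩ := hin y hy1 hy2
      rw [mem_image]
      refine ⟨i, ?_, rfl⟩
      rw [mem_filter, mem_range]
      refine ⟨hi, ?_⟩
      rw [hM, hm0] at hy3
      have h3 : (2 * u + 3 * i - ((m : ℤ) - 1)) * d ≤ 0 := by nlinarith
      have h4 : 2 * u + 3 * i - ((m : ℤ) - 1) ≤ 0 := by
        by_contra hcon
        have : 0 < (2 * u + 3 * i - ((m : ℤ) - 1)) * d := mul_pos (by omega) (by omega)
        omega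
      omega
    have f3 : ((range m).filter (fun i => 4 + 5 * i ≤ 3 * (m - 1))).card +
        ((range m).filter (fun i => 4 + 3 * i ≤ m - 1)).card + 2 ≤ m := by
      interval_cases m <;> decide
    omega

/-- Index pairs of the progressions with `k + 1` terms in `{0, …, m - 1}`. -/
def Idx (k m : ℕ) : Finset (ℕ × ℕ) :=
  ((range m) ×ˢ (range m)).filter (fun q => 1 ≤ q.2 ∧ q.1 + k * q.2 < m)

theorem idx_of {k : ℕ} (hk : 1 ≤ k) {a d : ℤ} (hd : 1 ≤ d) {m : ℕ} {x e : ℤ} (he : 1 ≤ e)
    (h2 : In k (apz a d m) x e) :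
    ∃ u v : ℕ, 1 ≤ v ∧ u + k * v < m ∧ x = a + (u : ℤ) * d ∧ e = (v : ℤ) * d := by
  obtain ⟨u, hu, hu2⟩ := mem_apz.1 (h2 0 (Nat.zero_le k))
  obtain ⟨v, hv, hv2⟩ := mem_apz.1 (h2 1 hk)
  obtain ⟨w, hw, hw2⟩ := mem_apz.1 (h2 k le_rfl)
  push_cast at hu2 hv2
  have huv : u < v := by
    by_contra hcon
    have : (v : ℤ) ≤ u := by exact_mod_cast not_lt.1 hcon
    nlinarith
  have e1 : e = ((v - u : ℕ) : ℤ) * d := by
    rw [Nat.cast_sub huv.le]; linear_combination hu2 - hv2
  have e2 : (w : ℤ) = u + k * ((v - u : ℕ) : ℤ) := by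
    apply mul_right_cancel₀ (show d ≠ 0 by omega)
    rw [e1] at hw2
    linear_combination hw2 - hu2
  have e3 : w = u + k * (v - u) := by exact_mod_cast e2
  exact ⟨u, v - u, by omega, by omega, by linarith, e1⟩

theorem P_apz {k : ℕ} (hk : 1 ≤ k) {a d : ℤ} (hd : 1 ≤ d) (m : ℕ) :
    (P Tr k (apz a d m)).card = (Idx k m).card := by
  symm
  apply Finset.card_bij (fun q _ => (a + (q.1 : ℤ) * d, (q.2 : ℤ) * d))
  · intro q hq
    unfold Idx at hq
    rw [mem_filter, mem_product, mem_range, mem_range] at hq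
    rw [mem_P hk]
    obtain ⟨⟨h1, h2⟩, h3, h4⟩ := hq
    refine ⟨?_, fun i hi => ?_, trivial⟩
    · have : (1 : ℤ) ≤ (q.2 : ℤ) := by exact_mod_cast h3
      nlinarith
    · rw [mem_apz]
      refine ⟨q.1 + i * q.2, ?_, ?_⟩
      · have := Nat.mul_le_mul_right q.2 hi
        omega
      · push_cast; ring
  · intro p _ q _ h
    simp only [Prod.mk.injEq] at h
    obtain ⟨h1, h2⟩ := h
    have hd0 : d ≠ 0 := by omega
    have h3 := mul_right_cancel₀ hd0 h2
    have h4 := mul_right_cancel₀ hd0 (add_left_cancel h1)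
    ext
    · exact_mod_cast h4
    · exact_mod_cast h3
  · intro p hp
    rw [mem_P hk] at hp
    obtain ⟨h1, h2, -⟩ := hp
    obtain ⟨u, v, hv1, huv, e1, e2⟩ := idx_of hk hd h1 h2
    refine ⟨(u, v), ?_, ?_⟩
    · unfold Idx
      rw [mem_filter, mem_product, mem_range, mem_range]
      have : 1 * v ≤ k * v := Nat.mul_le_mul_right v hk
      refine ⟨⟨?_, ?_⟩, ?_, ?_⟩
      · simp only; omega
      · simp only; omega
      · exact hv1
      · exact huv
    · ext
      · simp only; exact e1.symm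
      · simp only; exact e2.symm

theorem P_sub {R : ℤ → ℤ → Prop} {k : ℕ} (hk : 1 ≤ k) (A : Finset ℤ) :
    (P R k A).card ≤ (P Tr k A).card := by
  apply card_le_card
  intro p hp
  rw [mem_P hk] at hp ⊢
  exact ⟨hp.1, hp.2.1, trivial⟩

/-- The statement proved by induction. -/
def St (R : ℤ → ℤ → Prop) (A : Finset ℤ) : Prop :=
  2 * (tot R A : ℤ) ≤ ((A.card : ℤ) - 1) * ((A.card : ℤ) - 2) ∧
    (¬ (IsAP A ∧ A.card ≤ 6) →
      2 * (tot R A : ℤ) < ((A.card : ℤ) - 1) * ((A.card : ℤ) - 2))

theorem St_refl {R : ℤ → ℤ → Prop} {A : Finset ℤ} (h : St (rR R) (refl A)) : St R A := by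
  unfold St at h ⊢
  rwa [tot_refl, refl_card, IsAP_refl_iff] at h

theorem tot_seven {R : ℤ → ℤ → Prop} {a d : ℤ} (hd : 1 ≤ d) (hA : Ok R (apz a d 7)) :
    tot R (apz a d 7) ≤ 14 := by
  have h5 : (P R 5 (apz a d 7)).card = 0 := by
    rw [card_eq_zero, eq_empty_iff_forall_notMem]
    intro p hp
    rw [mem_P (by norm_num)] at hp
    obtain ⟨h1, h2, h3⟩ := hp
    obtain ⟨u, v, hv1, huv, e1, e2⟩ := idx_of (by norm_num) hd h1 h2
    have hv : v = 1 := by omega
    subst hv
    have hOk := hA a d hd (fun i hi => mem_apz.2 ⟨i, by omega, rfl⟩)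
    have hu : u = 0 ∨ u = 1 := by omega
    rw [e1, e2] at h3
    rcases hu with rfl | rfl
    · apply hOk.1
      simpa using h3
    · apply hOk.2
      simpa using h3
  unfold tot
  rw [h5, P_apz (by norm_num) hd, P_apz (by norm_num) hd]
  decide

theorem step {R : ℤ → ℤ → Prop} {A : Finset ℤ} (hA : Ok R A) {m0 : ℤ} (h0 : m0 ∈ A)
    (hmin : ∀ y ∈ A, m0 ≤ y)
    (hn : 2 ≤ A.card) (hgood : ends R A m0 + 2 ≤ A.card) (IH : St R (A.erase m0)) :
    St R A := by
  have hc : ((A.erase m0).card : ℤ) = A.card - 1 := by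
    rw [card_erase_of_mem h0, Nat.cast_sub (by omega)]; simp
  have ht : (tot R A : ℤ) = tot R (A.erase m0) + ends R A m0 := by
    rw [tot_erase_min hmin]; push_cast; ring
  have hg : (ends R A m0 : ℤ) + 2 ≤ A.card := by exact_mod_cast hgood
  unfold St at IH ⊢
  rw [hc] at IH
  refine ⟨by nlinarith [IH.1], fun hnot => ?_⟩
  by_cases hap : IsAP (A.erase m0) ∧ (A.erase m0).card ≤ 6
  · obtain ⟨⟨a, d, m, hd, hm, hE⟩, hle⟩ := hap
    have hm' : (A.erase m0).card = m := by rw [hE, card_apz hd]
    have hmA : m + 1 = A.card := by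
      rw [← hm', card_erase_of_mem h0]; omega
    have hm6 : m ≤ 6 := by omega
    by_cases hne : a = m0 + d
    · have hAe : A = apz m0 d (m + 1) := by
        rw [← insert_erase h0, hE]
        ext y
        rw [mem_insert, mem_apz, mem_apz]
        constructor
        · rintro (rfl | ⟨i, hi, rfl⟩)
          · exact ⟨0, by omega, by simp⟩
          · refine ⟨i + 1, by omega, ?_⟩
            rw [hne]; push_cast; ring
        · rintro ⟨i, hi, rfl⟩
          rcases Nat.eq_zero_or_pos i with rfl | hi0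
          · left; simp
          · right
            refine ⟨i - 1, by omega, ?_⟩
            rw [hne, Nat.cast_sub hi0]; push_cast; ring
      by_cases hm5 : m ≤ 5
      · exact absurd ⟨⟨m0, d, m + 1, hd, by omega, hAe⟩, by omega⟩ hnot
      · have h6 : m = 6 := by omega
        subst h6
        have h7 : tot R A ≤ 14 := by
          rw [hAe]
          apply tot_seven hd
          rw [← hAe]; exact hA
        have h8 : (tot R A : ℤ) ≤ 14 := by exact_mod_cast h7
        have h9 : (A.card : ℤ) = 7 := by rw [← hmA]; norm_num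
        rw [h9]
        linarith
    · by_cases hm2 : 2 ≤ m
      · have h2 := ends_lt hA hmin hd hm2 hm6 hE hne
        have h3 : (ends R A m0 : ℤ) + 3 ≤ A.card := by
          rw [← hmA]; push_cast; omega
        nlinarith [IH.1]
      · exfalso
        have hm1 : m = 1 := by omega
        subst hm1
        have ha : m0 < a := by
          have h1 : a ∈ A.erase m0 := by
            rw [hE, mem_apz]; exact ⟨0, by omega, by simp⟩
          rw [mem_erase] at h1
          have := hmin a h1.2
          have := h1.1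
          omega
        apply hnot
        refine ⟨⟨m0, a - m0, 2, by omega, by omega, ?_⟩, by omega⟩
        rw [← insert_erase h0, hE]
        ext y
        rw [mem_insert, mem_apz, mem_apz]
        constructor
        · rintro (rfl | ⟨i, hi, rfl⟩)
          · exact ⟨0, by omega, by simp⟩
          · refine ⟨1, by omega, ?_⟩
            have : i = 0 := by omega
            subst this; push_cast; ring
        · rintro ⟨i, hi, rfl⟩
          have : i = 0 ∨ i = 1 := by omega
          rcases this with rfl | rfl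
          · left; simp
          · right
            refine ⟨0, by omega, ?_⟩
            push_cast; ring
  · have := IH.2 hap
    nlinarith

theorem tot_small {R : ℤ → ℤ → Prop} {A : Finset ℤ} {m0 : ℤ} (hA1 : A ⊆ {m0}) : tot R A = 0 := by
  have : ∀ (Q : ℤ → ℤ → Prop) (k : ℕ), 1 ≤ k → (P Q k A).card = 0 := by
    intro Q k hk
    rw [card_eq_zero, eq_empty_iff_forall_notMem]
    intro p hp
    rw [mem_P hk] at hp
    have h3 := hA1 (hp.2.1 0 (Nat.zero_le k))
    have h4 := hA1 (hp.2.1 1 hk)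
    rw [mem_singleton] at h3 h4
    have h5 := hp.1
    push_cast at h3 h4
    omega
  unfold tot
  rw [this _ 2 (by norm_num), this _ 3 (by norm_num), this _ 5 (by norm_num)]

theorem St_all : ∀ n : ℕ, ∀ (R : ℤ → ℤ → Prop) (A : Finset ℤ), A.card = n → Ok R A → St R A := by
  intro n
  induction n with
  | zero =>
    intro R A hn hA
    rw [card_eq_zero] at hn
    subst hn
    unfold St
    rw [tot_small (m0 := 0) (empty_subset _)]
    norm_num
  | succ n ih =>
    intro R A hn hA
    have hne : A.Nonempty := by rw [← card_pos]; omega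
    obtain ⟨m0, hm0⟩ : ∃ m0, m0 = A.min' hne := ⟨_, rfl⟩
    obtain ⟨m1, hm1⟩ : ∃ m1, m1 = A.max' hne := ⟨_, rfl⟩
    have h0 : m0 ∈ A := by rw [hm0]; exact min'_mem _ _
    have h1 : m1 ∈ A := by rw [hm1]; exact max'_mem _ _
    have hmin : ∀ y ∈ A, m0 ≤ y := fun y hy => by rw [hm0]; exact min'_le _ _ hy
    have hmax : ∀ y ∈ A, y ≤ m1 := fun y hy => by rw [hm1]; exact le_max' _ _ hy
    by_cases hlt : m0 < m1
    · have h2 := two_ends hA h0 h1 hmin hmax hlt
      have hn2 : 2 ≤ A.card := by omega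
      by_cases hgood : ends R A m0 + 2 ≤ A.card
      · apply step hA h0 hmin hn2 hgood
        exact ih _ _ (by rw [card_erase_of_mem h0]; omega) (hA.mono (erase_subset _ _))
      · apply St_refl
        apply step (A := refl A) (m0 := -m1) (Ok_refl hA)
          (by rw [mem_refl, neg_neg]; exact h1)
          (fun y hy => by rw [mem_refl] at hy; have := hmax _ hy; omega)
          (by rw [refl_card]; exact hn2) (by rw [refl_card]; omega)
        rw [← refl_erase]
        exact ih _ _ (by rw [refl_card, card_erase_of_mem h1]; omega)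
          (Ok_refl (hA.mono (erase_subset _ _)))
    · have hA1 : A = {m0} := by
        ext y
        rw [mem_singleton]
        constructor
        · intro hy
          have := hmin y hy
          have := hmax y hy
          omega
        · rintro rfl; exact h0
      have hap : IsAP A := by
        refine ⟨m0, 1, 1, le_rfl, le_rfl, ?_⟩
        rw [hA1]
        ext y
        rw [mem_singleton, mem_apz]
        constructor
        · rintro rfl; exact ⟨0, by omega, by simp⟩
        · rintro ⟨i, hi, rfl⟩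
          have : i = 0 := by omega
          subst this; simp
      have ht : tot R A = 0 := tot_small (m0 := m0) (by rw [hA1])
      have hc : A.card = 1 := by rw [hA1]; simp
      unfold St
      rw [ht, hc]
      refine ⟨by simp, fun h => absurd ⟨hap, by norm_num⟩ h⟩

theorem tot_le {R : ℤ → ℤ → Prop} {A : Finset ℤ} (hA : Ok R A) :
    2 * (tot R A : ℤ) ≤ ((A.card : ℤ) - 1) * ((A.card : ℤ) - 2) := (St_all _ R A rfl hA).1

theorem tot_lt {R : ℤ → ℤ → Prop} {A : Finset ℤ} (hA : Ok R A) (h : ¬ (IsAP A ∧ A.card ≤ 6)) :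
    2 * (tot R A : ℤ) < ((A.card : ℤ) - 1) * ((A.card : ℤ) - 2) := (St_all _ R A rfl hA).2 h

end Pool.Agent.Work.MP_1d0aa8_co.SF
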