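import Pool.Agent.Work.MP_1d0aa8_co.SF.Main
import Pool.Agent.Work.MP_1d0aa8_co.ItLOWER

/-!
# MP_1d0aa8_co, short intersections: the statement for families of sets of natural numbers
-/

set_option autoImplicit false

namespace Pool.Agent.Work.MP_1d0aa8_co.SF

open Finset

/-- The integer copy of a set of naturals. -/
def up (A : Finset ℕ) : Finset ℤ := A.image (fun n : ℕ => (n : ℤ))

theorem mem_up {A : Finset ℕ} {n : ℕ} : ((n : ℤ) ∈ up A) ↔ n ∈ A := by
  unfold up
  rw [mem_image]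
  constructor
  · rintro ⟨m, hm, h⟩
    have : m = n := by exact_mod_cast h
    rwa [← this]
  · intro h; exact ⟨n, h, rfl⟩

theorem up_nonneg {A : Finset ℕ} {y : ℤ} (h : y ∈ up A) : ∃ n : ℕ, n ∈ A ∧ y = n := by
  unfold up at h
  rw [mem_image] at h
  obtain ⟨m, hm, h⟩ := h
  exact ⟨m, hm, h.symm⟩

theorem up_inj : Function.Injective up := by
  intro A B h
  ext n
  rw [← mem_up, ← mem_up, h]

theorem up_inter (A B : Finset ℕ) : up (A ∩ B) = up A ∩ up B := by
  unfold up
  exact image_inter _ _ Nat.cast_injective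

/-- Pairwise AP intersections, in the language of the problem. -/
def APN (N : ℕ) (F : Finset (Finset ℕ)) : Prop :=
  F ⊆ (Finset.Icc 1 N).powerset ∧
    ∀ A ∈ F, ∀ B ∈ F, A ≠ B →
      ∃ a d k : ℕ, A ∩ B = (Finset.range (k + 1)).image (fun i => a + i * d)

/-- No 7-term progression of a member has its first six or its last six terms in another
member. -/
def SN (F : Finset (Finset ℕ)) : Prop :=
  ∀ A ∈ F, ∀ B ∈ F, A ≠ B → ∀ a d : ℕ, 1 ≤ d →
    (Finset.range 7).image (fun i => a + i * d) ⊆ A →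
    ¬ (Finset.range 6).image (fun i => a + i * d) ⊆ B ∧
      ¬ (Finset.range 6).image (fun i => a + (i + 1) * d) ⊆ B

theorem in_of_up {k : ℕ} {A : Finset ℕ} {n e : ℕ} {x d : ℤ} (hx : x = n) (hd : d = e)
    (h : In k (up A) x d) : (Finset.range (k + 1)).image (fun i => n + i * e) ⊆ A := by
  intro y hy
  rw [mem_image] at hy
  obtain ⟨i, hi, rfl⟩ := hy
  rw [mem_range] at hi
  rw [← mem_up]
  have h4 := h i (by omega)
  rw [hx, hd] at h4
  push_cast
  exact h4

theorem fz_of {N : ℕ} {F : Finset (Finset ℕ)} (h : APN N F) (h3 : SN F) :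
    Fz N (F.image up) := by
  obtain ⟨h1, h2⟩ := h
  refine ⟨?_, ?_, ?_⟩
  · intro A hA
    rw [mem_image] at hA
    obtain ⟨B, hB, rfl⟩ := hA
    intro y hy
    obtain ⟨n, hn, rfl⟩ := up_nonneg hy
    have := (mem_powerset.1 (h1 hB)) hn
    rw [mem_Icc] at this ⊢
    omega
  · intro A hA B hB hne
    rw [mem_image] at hA hB
    obtain ⟨A', hA', rfl⟩ := hA
    obtain ⟨B', hB', rfl⟩ := hB
    obtain ⟨a, d, k, hk⟩ := h2 A' hA' B' hB' (fun h => hne (by rw [h]))
    rw [← up_inter, hk]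
    rcases Nat.eq_zero_or_pos d with rfl | hd
    · refine ⟨a, 1, 1, le_rfl, le_rfl, ?_⟩
      ext y
      rw [mem_apz]
      constructor
      · intro hy
        obtain ⟨n, hn, rfl⟩ := up_nonneg hy
        rw [mem_image] at hn
        obtain ⟨i, -, hi⟩ := hn
        exact ⟨0, by omega, by omega⟩
      · rintro ⟨i, hi, rfl⟩
        have h0 : i = 0 := by omega
        subst h0
        rw [show (a : ℤ) + ((0 : ℕ) : ℤ) * 1 = ((a : ℕ) : ℤ) by simp, mem_up, mem_image]
        exact ⟨0, by simp, by simp⟩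
    · refine ⟨a, d, k + 1, by exact_mod_cast hd, by omega, ?_⟩
      ext y
      rw [mem_apz]
      constructor
      · intro hy
        obtain ⟨n, hn, rfl⟩ := up_nonneg hy
        rw [mem_image] at hn
        obtain ⟨i, hi, rfl⟩ := hn
        rw [mem_range] at hi
        exact ⟨i, hi, by push_cast; ring⟩
      · rintro ⟨i, hi, rfl⟩
        rw [show (a : ℤ) + (i : ℤ) * (d : ℤ) = ((a + i * d : ℕ) : ℤ) by push_cast; ring, mem_up,
          mem_image]
        exact ⟨i, mem_range.2 hi, rfl⟩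
  · intro A hA B hB hne x d hd hx
    rw [mem_image] at hA hB
    obtain ⟨A', hA', rfl⟩ := hA
    obtain ⟨B', hB', rfl⟩ := hB
    obtain ⟨n, hn, hn2⟩ := up_nonneg (hx 0 (by norm_num))
    push_cast at hn2
    have hxn : x = n := by linarith
    obtain ⟨e, he⟩ := Int.eq_ofNat_of_zero_le (show 0 ≤ d by omega)
    have he1 : 1 ≤ e := by omega
    have h4 := h3 A' hA' B' hB' (fun h => hne (by rw [h])) n e he1 (in_of_up hxn he hx)
    refine ⟨fun h5 => h4.1 (in_of_up hxn he h5), fun h5 => h4.2 ?_⟩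
    have h6 := in_of_up (n := n + e) (e := e) (by rw [hxn, he]; push_cast; ring) he h5
    intro y hy
    apply h6
    rw [mem_image] at hy ⊢
    obtain ⟨i, hi, rfl⟩ := hy
    exact ⟨i, hi, by ring⟩

theorem upper {N : ℕ} {F : Finset (Finset ℕ)} (h : APN N F) (h3 : SN F) :
    F.card ≤ N.choose 2 + 1 + (N - 1) / 4 := by
  have h1 := card_le (fz_of h h3)
  rwa [card_image_of_injective _ up_inj] at h1

theorem upper' {N : ℕ} {F : Finset (Finset ℕ)} (h : APN N F) (h3 : SN F)
    (hs : ¬ ∃ x : ℕ, ∀ A ∈ F, x ∈ A) : F.card ≤ N.choose 2 + 1 := by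
  by_cases hF : F = ∅
  · rw [hF]; simp
  · obtain ⟨A0, hA0⟩ := nonempty_iff_ne_empty.2 hF
    have h1 := card_le_of_not_star (fz_of h h3) (by
      rintro ⟨x, hx⟩
      apply hs
      obtain ⟨n, hn, rfl⟩ := up_nonneg (hx (up A0) (mem_image_of_mem _ hA0))
      refine ⟨n, fun A hA => ?_⟩
      have := hx (up A) (mem_image_of_mem _ hA)
      rwa [mem_up] at this)
    rwa [card_image_of_injective _ up_inj] at h1

/-- Families with small intersections satisfy the condition. -/
theorem SN_of_card {F : Finset (Finset ℕ)}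
    (h : ∀ A ∈ F, ∀ B ∈ F, A ≠ B → (A ∩ B).card ≤ 5) : SN F := by
  intro A hA B hB hne a d hd h7
  have inj : ∀ b : ℕ, Function.Injective (fun i : ℕ => a + (i + b) * d) := by
    intro b i j hij
    have h1 : (i + b) * d = (j + b) * d := by simpa using hij
    have := Nat.eq_of_mul_eq_mul_right hd h1
    omega
  constructor
  · intro h6
    have h1 : (Finset.range 6).image (fun i => a + i * d) ⊆ A ∩ B := by
      intro y hy
      refine mem_inter.2 ⟨h7 ?_, h6 hy⟩
      rw [mem_image] at hy ⊢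
      obtain ⟨i, hi, rfl⟩ := hy
      rw [mem_range] at hi
      exact ⟨i, mem_range.2 (by omega), rfl⟩
    have h2 := card_le_card h1
    rw [card_image_of_injective _ (by simpa using inj 0), card_range] at h2
    have := h A hA B hB hne
    omega
  · intro h6
    have h1 : (Finset.range 6).image (fun i => a + (i + 1) * d) ⊆ A ∩ B := by
      intro y hy
      refine mem_inter.2 ⟨h7 ?_, h6 hy⟩
      rw [mem_image] at hy ⊢
      obtain ⟨i, hi, rfl⟩ := hy
      rw [mem_range] at hi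
      exact ⟨i + 1, mem_range.2 (by omega), rfl⟩
    have h2 := card_le_card h1
    rw [card_image_of_injective _ (inj 1), card_range] at h2
    have := h A hA B hB hne
    omega

theorem SN_of_free {F : Finset (Finset ℕ)}
    (h : ∀ A ∈ F, ∀ a d : ℕ, 1 ≤ d → ¬ (Finset.range 7).image (fun i => a + i * d) ⊆ A) :
    SN F := fun A hA _ _ _ a d hd h7 => absurd h7 (h A hA a d hd)

theorem lower {N : ℕ} (hN : 1 ≤ N) :
    ∃ F : Finset (Finset ℕ), APN N F ∧ (∀ A ∈ F, A.card ≤ 5) ∧
      (∃ x : ℕ, ∀ A ∈ F, x ∈ A) ∧ F.card = N.choose 2 + 1 + (N - 1) / 4 := by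
  obtain ⟨x, hx⟩ : ∃ x, x = (N + 1) / 2 := ⟨_, rfl⟩
  obtain ⟨D, hD⟩ : ∃ D, D = (N - 1) / 4 := ⟨_, rfl⟩
  have h1 : 2 * D < x := by omega
  have h2 : x + 2 * D ≤ N := by omega
  have hmem : ∀ A ∈ LowAux.Fm N x D, A ⊆ Icc 1 N ∧ A.card ≤ 5 ∧ x ∈ A := by
    intro A hA
    unfold LowAux.Fm at hA
    simp only [mem_union, mem_image, mem_Icc] at hA
    rcases hA with ⟨s, hs, rfl⟩ | ⟨d, hd, rfl⟩ | ⟨d, hd, rfl⟩ | ⟨d, hd, rfl⟩
    · obtain ⟨h4, h3, h5, -⟩ := LowAux.mG hs
      refine ⟨?_, ?_, mem_insert_self x s⟩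
      · intro y hy
        rw [mem_insert] at hy
        rcases hy with rfl | hy
        · rw [mem_Icc]; omega
        · exact h3 hy
      · rw [card_insert_of_notMem h4]; omega
    · refine ⟨?_, ?_, by rw [LowAux.m1]; omega⟩
      · intro y hy
        rw [LowAux.m1] at hy
        rw [mem_Icc]; omega
      · rw [LowAux.cR1 hd.1 (by omega)]; norm_num
    · refine ⟨?_, ?_, by rw [LowAux.m2]; omega⟩
      · intro y hy
        rw [LowAux.m2] at hy
        rw [mem_Icc]; omega
      · rw [LowAux.cR2 hd.1 (by omega)]; norm_num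
    · refine ⟨?_, ?_, by rw [LowAux.m5]; omega⟩
      · intro y hy
        rw [LowAux.m5] at hy
        rw [mem_Icc]; omega
      · rw [LowAux.cP5 hd.1 (by omega)]
  refine ⟨LowAux.Fm N x D, ⟨?_, ?_⟩, fun A hA => (hmem A hA).2.1,
    ⟨x, fun A hA => (hmem A hA).2.2⟩, ?_⟩
  · intro A hA
    rw [mem_powerset]
    exact (hmem A hA).1
  · intro A hA B hB hAB
    exact LowAux.fam_inter h1 hA hB hAB
  · rw [LowAux.card_Fm h1 h2]
    have h3 := LowAux.card_G h1 h2
    rw [← hD]
    obtain ⟨m, rfl⟩ : ∃ m, N = m + 1 := ⟨N - 1, by omega⟩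
    have h4 : (m + 1).choose 2 = m + m.choose 2 := by
      rw [Nat.choose_succ_succ' m 1]; simp
    simp only [Nat.add_sub_cancel] at h3
    omega

end Pool.Agent.Work.MP_1d0aa8_co.SF
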