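import Pool.Agent.Work.MP_1d0aa8_co.SF.Quad

/-!
# MP_1d0aa8_co, short intersections: inclusion-exclusion for progressions with at most five terms
-/

set_option autoImplicit false

namespace Pool.Agent.Work.MP_1d0aa8_co.SF

open Finset

theorem mem_apz_int {a δ : ℤ} (hδ : 1 ≤ δ) {m : ℕ} {t : ℤ} :
    a + t * δ ∈ apz a δ m ↔ 0 ≤ t ∧ t < m := by
  rw [mem_apz]
  constructor
  · rintro ⟨i, hi, h⟩
    have h1 : (i : ℤ) * δ = t * δ := by linarith
    have h2 : (i : ℤ) = t := mul_right_cancel₀ (show δ ≠ 0 by omega) h1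
    omega
  · rintro ⟨h1, h2⟩
    exact ⟨t.toNat, by omega, by rw [Int.toNat_of_nonneg h1]⟩

theorem In_apz {a δ : ℤ} (hδ : 1 ≤ δ) {m : ℕ} {y g t s : ℤ} (hy : y = a + t * δ)
    (hg : g = s * δ) (hs : 0 ≤ s) {k : ℕ} :
    In k (apz a δ m) y g ↔ 0 ≤ t ∧ t + k * s < m := by
  have h0 : ∀ i : ℕ, y + (i : ℤ) * g = a + (t + i * s) * δ := by
    intro i; rw [hy, hg]; ring
  constructor
  · intro h
    have h1 := h 0 (Nat.zero_le k)
    have h2 := h k le_rfl
    rw [h0, mem_apz_int hδ] at h1 h2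
    push_cast at h1
    exact ⟨by omega, h2.2⟩
  · rintro ⟨h1, h2⟩ i hi
    rw [h0, mem_apz_int hδ]
    have h3 : (i : ℤ) * s ≤ (k : ℤ) * s := mul_le_mul_of_nonneg_right (by exact_mod_cast hi) hs
    have h4 : 0 ≤ (i : ℤ) * s := mul_nonneg (by positivity) hs
    omega

theorem ind_cases (Q : Prop) : (Q ∧ ind Q = 1) ∨ (¬ Q ∧ ind Q = 0) := by
  by_cases hQ : Q
  · exact Or.inl ⟨hQ, ind_pos hQ⟩
  · exact Or.inr ⟨hQ, ind_neg hQ⟩

theorem pair_id {A : Finset ℤ} (hA : IsAP A) (h5 : A.card ≤ 5) {x d : ℤ} (hd : 1 ≤ d) :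
    ind (A = {x, x + 2 * d}) = ind (In 1 A x (2 * d)) - ind (In 2 A (x - 2 * d) (2 * d)) -
      ind (In 2 A x (2 * d)) - ind (In 2 A x d) - ind (∃ g, 3 * g = 2 * d ∧ In 3 A x g) +
      ind (In 3 A (x - 2 * d) (2 * d)) + ind (In 4 A (x - 2 * d) d) + ind (In 4 A x d) := by
  by_cases h : In 1 A x (2 * d)
  · obtain ⟨a, δ, m, hδ, hm, rfl⟩ := hA
    rw [card_apz hδ] at h5
    obtain ⟨p, hp, hp2⟩ := mem_apz.1 (h 0 (by norm_num))
    obtain ⟨q, hq, hq2⟩ := mem_apz.1 (h 1 le_rfl)
    push_cast at hp2 hq2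
    obtain ⟨r, hr⟩ : ∃ r : ℤ, r = q - p := ⟨_, rfl⟩
    have hx : x = a + (p : ℤ) * δ := by linarith
    have h2d : 2 * d = r * δ := by rw [hr]; linarith
    have hr1 : 1 ≤ r := by
      by_contra hcon
      have h1 : r ≤ 0 := by omega
      have h2 : r * δ ≤ 0 := mul_nonpos_of_nonpos_of_nonneg h1 (by omega)
      omega
    have hx2 : x - 2 * d = a + ((p : ℤ) - r) * δ := by rw [h2d, hx]; ring
    have E0 : In 1 (apz a δ m) x (2 * d) ↔ True := by simp [h]
    have E1 : In 2 (apz a δ m) (x - 2 * d) (2 * d) ↔ r ≤ p := by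
      rw [In_apz hδ hx2 h2d (by omega)]; push_cast; omega
    have E2 : In 2 (apz a δ m) x (2 * d) ↔ (p : ℤ) + 2 * r < m := by
      rw [In_apz hδ hx h2d (by omega)]; push_cast; omega
    have E6 : In 3 (apz a δ m) (x - 2 * d) (2 * d) ↔ (r ≤ p ∧ (p : ℤ) + 2 * r < m) := by
      rw [In_apz hδ hx2 h2d (by omega)]; push_cast; omega
    have E4 : In 2 (apz a δ m) x d ↔ (2 : ℤ) ∣ r := by
      constructor
      · intro h'
        obtain ⟨j, hj, hj2⟩ := mem_apz.1 (h' 1 (by norm_num))
        push_cast at hj2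
        have h1 : r * δ = (2 * ((j : ℤ) - p)) * δ := by
          rw [← h2d]; linear_combination (-2 : ℤ) * hj2 - (2 : ℤ) * hx
        exact ⟨_, mul_right_cancel₀ (show δ ≠ 0 by omega) h1⟩
      · rintro ⟨s, hs⟩
        have hds : d = s * δ := by
          have : 2 * d = 2 * (s * δ) := by rw [h2d, hs]; ring
          linarith
        rw [In_apz hδ hx hds (by omega)]; push_cast; omega
    have E7 : In 4 (apz a δ m) (x - 2 * d) d ↔ ((2 : ℤ) ∣ r ∧ r ≤ p) := by
      constructor
      · intro h'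
        have h3 : In 2 (apz a δ m) x d := by
          intro i hi
          have h4 := h' (i + 2) (by omega)
          rw [show x - 2 * d + ((i + 2 : ℕ) : ℤ) * d = x + (i : ℤ) * d by push_cast; ring] at h4
          exact h4
        refine ⟨E4.1 h3, ?_⟩
        have h4 := h' 0 (by norm_num)
        rw [show x - 2 * d + ((0 : ℕ) : ℤ) * d = a + ((p : ℤ) - r) * δ by rw [hx2]; simp,
          mem_apz_int hδ] at h4
        omega
      · rintro ⟨⟨s, hs⟩, h3⟩
        have hds : d = s * δ := by
          have : 2 * d = 2 * (s * δ) := by rw [h2d, hs]; ring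
          linarith
        rw [In_apz hδ hx2 hds (by omega)]; push_cast; omega
    have E8 : In 4 (apz a δ m) x d ↔ ((2 : ℤ) ∣ r ∧ (p : ℤ) + 2 * r < m) := by
      constructor
      · intro h'
        have h3 : In 2 (apz a δ m) x d := fun i hi => h' i (by omega)
        refine ⟨E4.1 h3, ?_⟩
        have h4 := h' 4 (by norm_num)
        rw [show x + ((4 : ℕ) : ℤ) * d = a + ((p : ℤ) + 2 * r) * δ by
          push_cast; linear_combination hx + 2 * h2d, mem_apz_int hδ] at h4
        omega
      · rintro ⟨⟨s, hs⟩, h3⟩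
        have hds : d = s * δ := by
          have : 2 * d = 2 * (s * δ) := by rw [h2d, hs]; ring
          linarith
        rw [In_apz hδ hx hds (by omega)]; push_cast; omega
    have E5 : (∃ g, 3 * g = 2 * d ∧ In 3 (apz a δ m) x g) ↔ (3 : ℤ) ∣ r := by
      constructor
      · rintro ⟨g, hg, h'⟩
        obtain ⟨j, hj, hj2⟩ := mem_apz.1 (h' 1 (by norm_num))
        push_cast at hj2
        have h1 : r * δ = (3 * ((j : ℤ) - p)) * δ := by
          rw [← h2d, ← hg]; linear_combination (-3 : ℤ) * hj2 - (3 : ℤ) * hx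
        exact ⟨_, mul_right_cancel₀ (show δ ≠ 0 by omega) h1⟩
      · rintro ⟨s, hs⟩
        refine ⟨s * δ, by rw [h2d, hs]; ring, ?_⟩
        rw [In_apz hδ hx rfl (by omega)]; push_cast; omega
    have E9 : (apz a δ m = {x, x + 2 * d}) ↔ m = 2 := by
      constructor
      · intro h'
        have h1 := card_apz (a := a) hδ m
        rw [h', card_pair (by omega)] at h1
        exact h1.symm
      · intro h'
        have hp0 : p = 0 := by omega
        have hq1 : r = 1 := by omega
        subst h'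
        rw [hx, h2d, hp0, hq1]
        ext y
        rw [mem_apz, mem_insert, mem_singleton]
        constructor
        · rintro ⟨i, hi, rfl⟩
          have : i = 0 ∨ i = 1 := by omega
          rcases this with rfl | rfl
          · left; simp
          · right; push_cast; ring
        · rintro (rfl | rfl)
          · exact ⟨0, by omega, by simp⟩
          · exact ⟨1, by omega, by push_cast; ring⟩
    rw [ind_congr E0, ind_congr E1, ind_congr E2, ind_congr E4, ind_congr E5, ind_congr E6,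
      ind_congr E7, ind_congr E8, ind_congr E9, ind_and, ind_and, ind_and,
      ind_pos trivial]
    rcases ind_cases (r ≤ p) with ⟨c1, w1⟩ | ⟨c1, w1⟩ <;>
      rcases ind_cases ((p : ℤ) + 2 * r < m) with ⟨c2, w2⟩ | ⟨c2, w2⟩ <;>
      rcases ind_cases ((2 : ℤ) ∣ r) with ⟨c3, w3⟩ | ⟨c3, w3⟩ <;>
      rcases ind_cases ((3 : ℤ) ∣ r) with ⟨c4, w4⟩ | ⟨c4, w4⟩ <;>
      rcases ind_cases (m = 2) with ⟨c5, w5⟩ | ⟨c5, w5⟩ <;>
      first
      | (exfalso; omega)
      | (rw [w1, w2, w3, w4, w5]; norm_num)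
  · have n1 : ¬ In 2 A (x - 2 * d) (2 * d) := fun h' => h (fun i hi => by
      have h4 := h' (i + 1) (by omega)
      rw [show x - 2 * d + ((i + 1 : ℕ) : ℤ) * (2 * d) = x + (i : ℤ) * (2 * d) by
        push_cast; ring] at h4
      exact h4)
    have n2 : ¬ In 2 A x (2 * d) := fun h' => h (fun i hi => h' i (by omega))
    have n3 : ¬ In 3 A (x - 2 * d) (2 * d) := fun h' => n1 (fun i hi => h' i (by omega))
    have n4 : ¬ In 2 A x d := fun h' => h (fun i hi => by
      have h4 := h' (2 * i) (by omega)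
      rw [show x + ((2 * i : ℕ) : ℤ) * d = x + (i : ℤ) * (2 * d) by push_cast; ring] at h4
      exact h4)
    have n5 : ¬ ∃ g, 3 * g = 2 * d ∧ In 3 A x g := by
      rintro ⟨g, hg, h'⟩
      exact h (fun i hi => by
        have h4 := h' (3 * i) (by omega)
        rw [show x + ((3 * i : ℕ) : ℤ) * g = x + (i : ℤ) * (2 * d) by
          rw [← hg]; push_cast; ring] at h4
        exact h4)
    have n6 : ¬ In 4 A x d := fun h' => n4 (fun i hi => h' i (by omega))
    have n7 : ¬ In 4 A (x - 2 * d) d := fun h' => n4 (fun i hi => by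
      have h4 := h' (i + 2) (by omega)
      rw [show x - 2 * d + ((i + 2 : ℕ) : ℤ) * d = x + (i : ℤ) * d by push_cast; ring] at h4
      exact h4)
    have n8 : ¬ A = {x, x + 2 * d} := by
      rintro rfl
      apply h
      intro i hi
      have : i = 0 ∨ i = 1 := by omega
      rcases this with rfl | rfl <;> simp
    rw [ind_neg h, ind_neg n1, ind_neg n2, ind_neg n3, ind_neg n4, ind_neg n5, ind_neg n6,
      ind_neg n7, ind_neg n8]
    norm_num

theorem trip_id {A : Finset ℤ} (hA : IsAP A) (h5 : A.card ≤ 5) {x d : ℤ} (hd : 1 ≤ d) :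
    ind (A = {x, x + d, x + 2 * d}) = ind (In 2 A x d) - ind (In 3 A (x - d) d) -
      ind (In 3 A x d) - ind (∃ f, 2 * f = d ∧ In 4 A x f) + ind (In 4 A (x - d) d) := by
  by_cases h : In 2 A x d
  · obtain ⟨a, δ, m, hδ, hm, rfl⟩ := hA
    rw [card_apz hδ] at h5
    obtain ⟨p, hp, hp2⟩ := mem_apz.1 (h 0 (by norm_num))
    obtain ⟨q, hq, hq2⟩ := mem_apz.1 (h 1 (by norm_num))
    push_cast at hp2 hq2
    obtain ⟨r, hr⟩ : ∃ r : ℤ, r = q - p := ⟨_, rfl⟩
    have hx : x = a + (p : ℤ) * δ := by linarith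
    have hdr : d = r * δ := by rw [hr]; linarith
    have hr1 : 1 ≤ r := by
      by_contra hcon
      have h1 : r ≤ 0 := by omega
      have h2 : r * δ ≤ 0 := mul_nonpos_of_nonpos_of_nonneg h1 (by omega)
      omega
    have hx2 : x - d = a + ((p : ℤ) - r) * δ := by rw [hdr, hx]; ring
    have h2 : (p : ℤ) + 2 * r < m := by
      have := (In_apz (k := 2) (m := m) hδ hx hdr (by omega)).1 h
      push_cast at this
      omega
    have E0 : In 2 (apz a δ m) x d ↔ True := by simp [h]
    have E1 : In 3 (apz a δ m) (x - d) d ↔ r ≤ p := by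
      rw [In_apz hδ hx2 hdr (by omega)]; push_cast; omega
    have E2 : In 3 (apz a δ m) x d ↔ (p : ℤ) + 3 * r < m := by
      rw [In_apz hδ hx hdr (by omega)]; push_cast; omega
    have E3 : In 4 (apz a δ m) (x - d) d ↔ (r ≤ p ∧ (p : ℤ) + 3 * r < m) := by
      rw [In_apz hδ hx2 hdr (by omega)]; push_cast; omega
    have E5 : (∃ f, 2 * f = d ∧ In 4 (apz a δ m) x f) ↔ (2 : ℤ) ∣ r := by
      constructor
      · rintro ⟨g, hg, h'⟩
        obtain ⟨j, hj, hj2⟩ := mem_apz.1 (h' 1 (by norm_num))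
        push_cast at hj2
        have h1 : r * δ = (2 * ((j : ℤ) - p)) * δ := by
          rw [← hdr, ← hg]; linear_combination (-2 : ℤ) * hj2 - (2 : ℤ) * hx
        exact ⟨_, mul_right_cancel₀ (show δ ≠ 0 by omega) h1⟩
      · rintro ⟨s, hs⟩
        refine ⟨s * δ, by rw [hdr, hs]; ring, ?_⟩
        rw [In_apz hδ hx rfl (by omega)]; push_cast; omega
    have E9 : (apz a δ m = {x, x + d, x + 2 * d}) ↔ m = 3 := by
      constructor
      · intro h'
        have h1 := card_apz (a := a) hδ m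
        rw [h', card_insert_of_notMem, card_pair (by omega)] at h1
        · exact h1.symm
        · simp only [mem_insert, mem_singleton]; omega
      · intro h'
        have hp0 : p = 0 := by omega
        have hq1 : r = 1 := by omega
        subst h'
        rw [hx, hdr, hp0, hq1]
        ext y
        rw [mem_apz, mem_insert, mem_insert, mem_singleton]
        constructor
        · rintro ⟨i, hi, rfl⟩
          have : i = 0 ∨ i = 1 ∨ i = 2 := by omega
          rcases this with rfl | rfl | rfl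
          · left; simp
          · right; left; push_cast; ring
          · right; right; push_cast; ring
        · rintro (rfl | rfl | rfl)
          · exact ⟨0, by omega, by simp⟩
          · exact ⟨1, by omega, by push_cast; ring⟩
          · exact ⟨2, by omega, by push_cast; ring⟩
    rw [ind_congr E0, ind_congr E1, ind_congr E2, ind_congr E3, ind_congr E5, ind_congr E9,
      ind_and, ind_pos trivial]
    rcases ind_cases (r ≤ p) with ⟨c1, w1⟩ | ⟨c1, w1⟩ <;>
      rcases ind_cases ((p : ℤ) + 3 * r < m) with ⟨c2, w2⟩ | ⟨c2, w2⟩ <;>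
      rcases ind_cases ((2 : ℤ) ∣ r) with ⟨c3, w3⟩ | ⟨c3, w3⟩ <;>
      rcases ind_cases (m = 3) with ⟨c5, w5⟩ | ⟨c5, w5⟩ <;>
      first
      | (exfalso; omega)
      | (rw [w1, w2, w3, w5]; norm_num)
  · have n1 : ¬ In 3 A (x - d) d := fun h' => h (fun i hi => by
      have h4 := h' (i + 1) (by omega)
      rw [show x - d + ((i + 1 : ℕ) : ℤ) * d = x + (i : ℤ) * d by push_cast; ring] at h4
      exact h4)
    have n2 : ¬ In 3 A x d := fun h' => h (fun i hi => h' i (by omega))
    have n3 : ¬ In 4 A (x - d) d := fun h' => n1 (fun i hi => h' i (by omega))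
    have n5 : ¬ ∃ f, 2 * f = d ∧ In 4 A x f := by
      rintro ⟨g, hg, h'⟩
      exact h (fun i hi => by
        have h4 := h' (2 * i) (by omega)
        rw [show x + ((2 * i : ℕ) : ℤ) * g = x + (i : ℤ) * d by
          rw [← hg]; push_cast; ring] at h4
        exact h4)
    have n8 : ¬ A = {x, x + d, x + 2 * d} := by
      rintro rfl
      apply h
      intro i hi
      have : i = 0 ∨ i = 1 ∨ i = 2 := by omega
      rcases this with rfl | rfl | rfl <;> simp
    rw [ind_neg h, ind_neg n1, ind_neg n2, ind_neg n3, ind_neg n5, ind_neg n8]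
    norm_num

end Pool.Agent.Work.MP_1d0aa8_co.SF
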