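import Pool.Agent.Work.MP_1d0aa8_co.SF.Ids

/-!
# MP_1d0aa8_co, short intersections: the kernel of the pair functionals
-/

set_option autoImplicit false

namespace Pool.Agent.Work.MP_1d0aa8_co.SF

open Finset
open scoped Classical

variable {F : Finset (Finset ℤ)}

theorem sg_congr (α : F → ℝ) {Q R : Finset ℤ → Prop}
    (h : ∀ i : F, α i ≠ 0 → (Q i.1 ↔ R i.1)) : sg α Q = sg α R := by
  unfold sg
  apply sum_congr rfl
  intro i _
  by_cases hi : α i = 0
  · rw [hi]; ring
  · rw [ind_congr (h i hi)]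

theorem sg_zero (α : F → ℝ) {Q : Finset ℤ → Prop} (h : ∀ i : F, α i ≠ 0 → ¬ Q i.1) :
    sg α Q = 0 := by
  unfold sg
  apply sum_eq_zero
  intro i _
  by_cases hi : α i = 0
  · rw [hi]; ring
  · rw [ind_neg (h i hi)]; ring

theorem sg_single (α : F → ℝ) {Q : Finset ℤ → Prop} (i : F) (hi : Q i.1)
    (h : ∀ j : F, α j ≠ 0 → Q j.1 → j = i) : sg α Q = α i := by
  unfold sg
  rw [Finset.sum_eq_single i]
  · rw [ind_pos hi, mul_one]
  · intro j _ hj
    by_cases h0 : α j = 0
    · rw [h0]; ring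
    · rw [ind_neg (fun h' => hj (h j h0 h')), mul_zero]
  · intro h'; exact absurd (mem_univ i) h'

/-- Vectors killed by the empty set and all pairs. -/
def Kr (N : ℕ) (α : F → ℝ) : Prop := ∀ e ∈ Pall N, sg α (fun A => e ⊆ A) = 0

variable {N : ℕ}

theorem kr_all (hF : Fz N F) {α : F → ℝ} (hα : Kr N α) :
    (∀ x ∈ Icc 1 (N : ℤ), sg α (fun A => x ∈ A) = 0) ∧
    (∀ p ∈ Box N, sg α (fun A => In 2 A p.1 p.2) = 0) ∧
    (∀ p ∈ Box N, sg α (fun A => In 3 A p.1 p.2) = 0) ∧
    (∀ p ∈ (Box N).filter (fun p => Rs F p.1 p.2), sg α (fun A => In 5 A p.1 p.2) = 0) ∧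
    (∀ i : F, α i ^ 2 * Dr (Rs F) i.1 = 0) := by
  have h := quad hF α
  have h0 : ∑ e ∈ Pall N, (sg α (fun A => e ⊆ A)) ^ 2 = 0 := by
    apply sum_eq_zero
    intro e he
    rw [hα e he]; ring
  rw [h0] at h
  have n1 : ∀ x ∈ Icc 1 (N : ℤ), 0 ≤ (sg α (fun A => x ∈ A)) ^ 2 := fun x _ => sq_nonneg _
  have n2 : ∀ p ∈ Box N, 0 ≤ (sg α (fun A => In 2 A p.1 p.2)) ^ 2 := fun x _ => sq_nonneg _
  have n3 : ∀ p ∈ Box N, 0 ≤ (sg α (fun A => In 3 A p.1 p.2)) ^ 2 := fun x _ => sq_nonneg _
  have n4 : ∀ p ∈ (Box N).filter (fun p => Rs F p.1 p.2),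
      0 ≤ (sg α (fun A => In 5 A p.1 p.2)) ^ 2 := fun x _ => sq_nonneg _
  have n5 : ∀ i ∈ (univ : Finset F), 0 ≤ α i ^ 2 * Dr (Rs F) i.1 :=
    fun i _ => mul_nonneg (sq_nonneg _) (Dr_nonneg (hF.Ok i.2))
  have s1 := sum_nonneg n1
  have s2 := sum_nonneg n2
  have s3 := sum_nonneg n3
  have s4 := sum_nonneg n4
  have s5 := sum_nonneg n5
  refine ⟨fun x hx => ?_, fun x hx => ?_, fun x hx => ?_, fun x hx => ?_, fun i => ?_⟩
  · have := (sum_eq_zero_iff_of_nonneg n1).1 (by linarith) x hx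
    exact pow_eq_zero_iff (two_ne_zero) |>.1 this
  · have := (sum_eq_zero_iff_of_nonneg n2).1 (by linarith) x hx
    exact pow_eq_zero_iff (two_ne_zero) |>.1 this
  · have := (sum_eq_zero_iff_of_nonneg n3).1 (by linarith) x hx
    exact pow_eq_zero_iff (two_ne_zero) |>.1 this
  · have := (sum_eq_zero_iff_of_nonneg n4).1 (by linarith) x hx
    exact pow_eq_zero_iff (two_ne_zero) |>.1 this
  · exact (sum_eq_zero_iff_of_nonneg n5).1 (by linarith) i (mem_univ i)

theorem kr_ap (hF : Fz N F) {α : F → ℝ} (hα : Kr N α) {i : F} (hi : α i ≠ 0) :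
    IsAP i.1 ∧ i.1.card ≤ 6 := by
  by_contra hcon
  have h1 := (kr_all hF hα).2.2.2.2 i
  have h2 := Dr_pos (hF.Ok i.2) hcon
  have h3 : 0 < α i ^ 2 := by positivity
  have := mul_pos h3 h2
  linarith

theorem kr_five (hF : Fz N F) {α : F → ℝ} (hα : Kr N α) {i : F} (hi : α i ≠ 0) :
    i.1.card ≤ 5 := by
  by_contra hcon
  obtain ⟨⟨a, d, m, hd, hm, hE⟩, h6⟩ := kr_ap hF hα hi
  have hm6 : m = 6 := by
    rw [hE, card_apz hd] at hcon h6
    omega
  subst hm6
  obtain ⟨-, -, -, a4, a5⟩ := kr_all hF hα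
  have hin : In 5 i.1 a d := by
    intro j hj
    rw [hE, mem_apz]
    exact ⟨j, by omega, rfl⟩
  by_cases hR : Rs F a d
  · have h1 : sg α (fun A => In 5 A a d) = 0 := by
      apply a4 (a, d)
      rw [mem_filter]
      exact ⟨mem_box (by norm_num) (hF.sub i.1 i.2) hd hin, hR⟩
    have h2 : sg α (fun A => In 5 A a d) = α i := by
      apply sg_single α i hin
      intro j hj0 hj
      apply Subtype.ext
      symm
      apply eq_of_subset_of_card_le
      · intro y hy
        rw [hE, mem_apz] at hy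
        obtain ⟨t, ht, rfl⟩ := hy
        exact hj t (by omega)
      · rw [hE, card_apz hd]
        exact (kr_ap hF hα hj0).2
    rw [h1] at h2
    exact hi h2.symm
  · have h1 := a5 i
    have h2 := Dr_six hd hR
    rw [hE] at h1
    have h3 : 0 < α i ^ 2 := by positivity
    have := mul_pos h3 h2
    linarith

theorem kr_In (hF : Fz N F) {α : F → ℝ} (hα : Kr N α) {k : ℕ} (hk : k ≤ 3)
    {x d : ℤ} (hd : 1 ≤ d) : sg α (fun A => In k A x d) = 0 := by
  obtain ⟨a1, a2, a3, a4, a5⟩ := kr_all hF hα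
  have hbox : ∀ k : ℕ, 1 ≤ k → (∀ p ∈ Box N, sg α (fun A => In k A p.1 p.2) = 0) →
      sg α (fun A => In k A x d) = 0 := by
    intro k hk h
    by_cases hp : (x, d) ∈ Box N
    · exact h _ hp
    · apply sg_zero
      intro i _ hi
      exact hp (mem_box hk (hF.sub i.1 i.2) hd hi)
  have hcases : k = 0 ∨ k = 1 ∨ k = 2 ∨ k = 3 := by omega
  rcases hcases with rfl | rfl | rfl | rfl
  · have h1 : sg α (fun A => In 0 A x d) = sg α (fun A => x ∈ A) := by
      apply sg_congr
      intro i _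
      constructor
      · intro h; simpa using h 0 le_rfl
      · intro h j hj
        have : j = 0 := by omega
        subst this; simpa using h
    rw [h1]
    by_cases hx : x ∈ Icc 1 (N : ℤ)
    · exact a1 x hx
    · apply sg_zero
      intro i _ hi
      exact hx (hF.sub i.1 i.2 hi)
  · have h1 : sg α (fun A => In 1 A x d) = sg α (fun A => ({x, x + d} : Finset ℤ) ⊆ A) := by
      apply sg_congr
      intro i _
      constructor
      · intro h y hy
        simp only [mem_insert, mem_singleton] at hy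
        rcases hy with rfl | rfl
        · simpa using h 0 (by norm_num)
        · simpa using h 1 (by norm_num)
      · intro h j hj
        have : j = 0 ∨ j = 1 := by omega
        rcases this with rfl | rfl
        · simpa using h (by simp)
        · have := h (show x + d ∈ ({x, x + d} : Finset ℤ) by simp)
          simpa using this
    rw [h1]
    by_cases hx : ({x, x + d} : Finset ℤ) ⊆ Icc 1 (N : ℤ)
    · apply hα
      unfold Pall
      rw [mem_insert, mem_powersetCard]
      right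
      exact ⟨hx, card_pair (by omega)⟩
    · apply sg_zero
      intro i _ hi
      exact hx (hi.trans (hF.sub i.1 i.2))
  · exact hbox 2 (by norm_num) a2
  · exact hbox 3 (by norm_num) a3

/-- The value attached to the progression `x, x + d, …, x + 4 d`. -/
noncomputable def A4 (α : F → ℝ) (x d : ℤ) : ℝ := sg α (fun A => In 4 A x d)

/-- A largest member in the support has five elements. -/
theorem kr_max (hF : Fz N F) {α : F → ℝ} (hα : Kr N α) {i : F} (hi : α i ≠ 0)
    (hmax : ∀ j : F, α j ≠ 0 → j.1.card ≤ i.1.card) :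
    ∃ x d : ℤ, 1 ≤ d ∧ i.1 = apz x d 5 ∧ A4 α x d = α i := by
  obtain ⟨a, d, m, hd, hm, hE⟩ := (kr_ap hF hα hi).1
  have hm6 : m ≤ 5 := by
    have := kr_five hF hα hi
    rwa [hE, card_apz hd] at this
  have hs : sg α (fun A => In (m - 1) A a d) = α i := by
    apply sg_single α i
    · intro j hj
      rw [hE, mem_apz]
      exact ⟨j, by omega, rfl⟩
    · intro j hj0 hj
      apply Subtype.ext
      symm
      apply eq_of_subset_of_card_le _ (hmax j hj0)
      intro y hy
      rw [hE, mem_apz] at hy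
      obtain ⟨t, ht, rfl⟩ := hy
      exact hj t (by omega)
  have hm5 : m = 5 := by
    by_contra hcon
    have := kr_In hF hα (k := m - 1) (by omega) (x := a) hd
    rw [hs] at this
    exact hi this
  subst hm5
  exact ⟨a, d, hd, hE, hs⟩

theorem kr_exists (hF : Fz N F) {α : F → ℝ} (hα : Kr N α) (h0 : α ≠ 0) :
    ∃ x d : ℤ, 1 ≤ d ∧ A4 α x d ≠ 0 := by
  obtain ⟨i0, hi0⟩ : ∃ i, α i ≠ 0 := by
    by_contra hcon
    push_neg at hcon
    exact h0 (funext hcon)
  obtain ⟨i, hi, hmax⟩ := exists_max_image (univ.filter (fun i : F => α i ≠ 0))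
    (fun i => i.1.card) ⟨i0, by rw [mem_filter]; exact ⟨mem_univ _, hi0⟩⟩
  rw [mem_filter] at hi
  have hm : ∀ j : F, α j ≠ 0 → j.1.card ≤ i.1.card := fun j hj =>
    hmax j (by rw [mem_filter]; exact ⟨mem_univ _, hj⟩)
  obtain ⟨x, d, hd, hE, hA⟩ := kr_max hF hα hi.2 hm
  refine ⟨x, d, hd, ?_⟩
  rw [hA]; exact hi.2

theorem mem_of_sg (α : F → ℝ) {B : Finset ℤ} (h : sg α (fun A => A = B) ≠ 0) : B ∈ F := by
  by_contra hcon
  apply h
  apply sg_zero
  intro i _ hi
  apply hcon
  rw [← hi]; exact i.2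

/-- The pair formula. -/
theorem kr_pair (hF : Fz N F) {α : F → ℝ} (hα : Kr N α) {x d : ℤ} (hd : 1 ≤ d) :
    sg α (fun A => A = {x, x + 2 * d}) = A4 α (x - 2 * d) d + A4 α x d := by
  have h1 : sg α (fun A => A = {x, x + 2 * d}) =
      sg α (fun A => In 1 A x (2 * d)) - sg α (fun A => In 2 A (x - 2 * d) (2 * d)) -
      sg α (fun A => In 2 A x (2 * d)) - sg α (fun A => In 2 A x d) -
      sg α (fun A => ∃ g, 3 * g = 2 * d ∧ In 3 A x g) +
      sg α (fun A => In 3 A (x - 2 * d) (2 * d)) + A4 α (x - 2 * d) d + A4 α x d := by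
    unfold A4 sg
    rw [← sum_sub_distrib, ← sum_sub_distrib, ← sum_sub_distrib, ← sum_sub_distrib,
      ← sum_add_distrib, ← sum_add_distrib, ← sum_add_distrib]
    apply sum_congr rfl
    intro i _
    by_cases hi : α i = 0
    · rw [hi]; ring
    · rw [pair_id (kr_ap hF hα hi).1 (kr_five hF hα hi) hd]; ring
  have hz : sg α (fun A => ∃ g, 3 * g = 2 * d ∧ In 3 A x g) = 0 := by
    by_cases hg : ∃ g : ℤ, 3 * g = 2 * d
    · obtain ⟨g, hg⟩ := hg
      have h2 : sg α (fun A => ∃ g, 3 * g = 2 * d ∧ In 3 A x g) =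
          sg α (fun A => In 3 A x g) := by
        apply sg_congr
        intro i _
        constructor
        · rintro ⟨g', hg', h'⟩
          have : g' = g := by omega
          rwa [this] at h'
        · intro h'; exact ⟨g, hg, h'⟩
      rw [h2]
      exact kr_In hF hα (by norm_num) (by omega)
    · apply sg_zero
      rintro i _ ⟨g, hg', -⟩
      exact hg ⟨g, hg'⟩
  rw [h1, hz, kr_In hF hα (by norm_num) (by omega),
    kr_In hF hα (by norm_num) (by omega),
    kr_In hF hα (by norm_num) (by omega),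
    kr_In hF hα (by norm_num) hd,
    kr_In hF hα (by norm_num) (by omega)]
  ring

/-- The triple formula. -/
theorem kr_trip (hF : Fz N F) {α : F → ℝ} (hα : Kr N α) {x d : ℤ} (hd : 1 ≤ d)
    (hhalf : ∀ f : ℤ, 2 * f = d → A4 α x f = 0) :
    sg α (fun A => A = {x, x + d, x + 2 * d}) = A4 α (x - d) d := by
  have h1 : sg α (fun A => A = {x, x + d, x + 2 * d}) =
      sg α (fun A => In 2 A x d) - sg α (fun A => In 3 A (x - d) d) -
      sg α (fun A => In 3 A x d) -
      sg α (fun A => ∃ f, 2 * f = d ∧ In 4 A x f) + A4 α (x - d) d := by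
    unfold A4 sg
    rw [← sum_sub_distrib, ← sum_sub_distrib, ← sum_sub_distrib, ← sum_add_distrib]
    apply sum_congr rfl
    intro i _
    by_cases hi : α i = 0
    · rw [hi]; ring
    · rw [trip_id (kr_ap hF hα hi).1 (kr_five hF hα hi) hd]; ring
  have hz : sg α (fun A => ∃ f, 2 * f = d ∧ In 4 A x f) = 0 := by
    by_cases hg : ∃ g : ℤ, 2 * g = d
    · obtain ⟨g, hg⟩ := hg
      have h2 : sg α (fun A => ∃ f, 2 * f = d ∧ In 4 A x f) = A4 α x g := by
        apply sg_congr
        intro i _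
        constructor
        · rintro ⟨g', hg', h'⟩
          have : g' = g := by omega
          rwa [this] at h'
        · intro h'; exact ⟨g, hg, h'⟩
      rw [h2]
      exact hhalf g hg
    · apply sg_zero
      rintro i _ ⟨g, hg', -⟩
      exact hg ⟨g, hg'⟩
  rw [h1, hz, kr_In hF hα (by norm_num) hd,
    kr_In hF hα (by norm_num) hd,
    kr_In hF hα (by norm_num) hd]
  ring

/-- Range of a non-zero value. -/
theorem A4_range (hF : Fz N F) {α : F → ℝ} {x d : ℤ} (h : A4 α x d ≠ 0) :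
    1 ≤ x ∧ x + 4 * d ≤ N := by
  by_contra hcon
  apply h
  unfold A4
  apply sg_zero
  intro i _ hi
  have h3 := hF.sub i.1 i.2 (hi 0 (by norm_num))
  have h4 := hF.sub i.1 i.2 (hi 4 (by norm_num))
  rw [mem_Icc] at h3 h4
  push_cast at h3 h4
  omega

/-- A non-zero value gives a member. -/
theorem A4_mem (hF : Fz N F) {α : F → ℝ} (hα : Kr N α) {x d : ℤ} (hd : 1 ≤ d)
    (h : A4 α x d ≠ 0) : apz x d 5 ∈ F := by
  by_contra hcon
  apply h
  unfold A4
  apply sg_zero
  intro i hi0 hi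
  apply hcon
  have h5 := kr_five hF hα hi0
  have hsub : apz x d 5 ⊆ i.1 := by
    intro y hy
    rw [mem_apz] at hy
    obtain ⟨t, ht, rfl⟩ := hy
    exact hi t (by omega)
  have : apz x d 5 = i.1 := eq_of_subset_of_card_le hsub (by rw [card_apz hd]; exact h5)
  rw [this]; exact i.2

end Pool.Agent.Work.MP_1d0aa8_co.SF
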