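import Pool.Agent.Work.MP_1d0aa8_co.SF.Ker

/-!
# MP_1d0aa8_co, short intersections: one centre, and the bounds
-/

set_option autoImplicit false

namespace Pool.Agent.Work.MP_1d0aa8_co.SF

open Finset

variable {F : Finset (Finset ℤ)} {N : ℕ}

theorem IsAP.nonempty {X : Finset ℤ} (h : IsAP X) : X.Nonempty := by
  obtain ⟨a, d, m, hd, hm, rfl⟩ := h
  exact ⟨a, mem_apz.2 ⟨0, by omega, by simp⟩⟩

theorem left_mem (hF : Fz N F) {α : F → ℝ} (hα : Kr N α) {c d : ℤ} (hd : 1 ≤ d)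
    (h1 : A4 α (c - 2 * d) d ≠ 0) (h2 : A4 α (c - 4 * d) d = 0) :
    ({c - 2 * d, c} : Finset ℤ) ∈ F := by
  have h := kr_pair hF hα (x := c - 2 * d) hd
  rw [show c - 2 * d - 2 * d = c - 4 * d by ring, h2, zero_add,
    show c - 2 * d + 2 * d = c by ring] at h
  apply mem_of_sg α
  rw [h]; exact h1

theorem right_mem (hF : Fz N F) {α : F → ℝ} (hα : Kr N α) {c d : ℤ} (hd : 1 ≤ d)
    (h1 : A4 α (c - 2 * d) d ≠ 0) (h2 : A4 α c d = 0) :
    ({c, c + 2 * d} : Finset ℤ) ∈ F := by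
  have h := kr_pair hF hα (x := c) hd
  rw [h2, add_zero] at h
  apply mem_of_sg α
  rw [h]; exact h1

/-- `c` is a centre. -/
def Cen (N : ℕ) (F : Finset (Finset ℤ)) (c : ℤ) : Prop :=
  ∃ α : F → ℝ, Kr N α ∧ ∃ d : ℤ, 1 ≤ d ∧ A4 α (c - 2 * d) d ≠ 0

theorem Cen.range (hF : Fz N F) {c : ℤ} (h : Cen N F c) : 1 ≤ c ∧ c ≤ N := by
  obtain ⟨α, hα, d, hd, h1⟩ := h
  have := A4_range hF h1
  omega

theorem one_centre (hF : Fz N F) {c c' : ℤ} (hc : Cen N F c) (hc' : Cen N F c') : c = c' := by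
  classical
  obtain ⟨C, hC⟩ : ∃ C : Finset ℤ, C = (Icc 1 (N : ℤ)).filter (fun c => Cen N F c) := ⟨_, rfl⟩
  have hmem : ∀ y, y ∈ C ↔ Cen N F y := by
    intro y
    rw [hC, mem_filter, mem_Icc]
    exact ⟨fun h => h.2, fun h => ⟨h.range hF, h⟩⟩
  have hne : C.Nonempty := ⟨c, (hmem c).2 hc⟩
  obtain ⟨a, ha, hamin⟩ := exists_min_image C id hne
  obtain ⟨b, hb, hbmax⟩ := exists_max_image C id hne
  simp only [id] at hamin hbmax
  have hab : a = b := by
    by_contra hcon
    have hlt : a < b := lt_of_le_of_ne (hamin b hb) hcon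
    obtain ⟨α, hα, d, hd, h1⟩ := (hmem a).1 ha
    obtain ⟨β, hβ, e, he, h2⟩ := (hmem b).1 hb
    have h3 : A4 α (a - 4 * d) d = 0 := by
      by_contra hcon
      have : a - 2 * d ∈ C := (hmem _).2 ⟨α, hα, d, hd, by
        rwa [show a - 2 * d - 2 * d = a - 4 * d by ring]⟩
      have := hamin _ this
      omega
    have h4 : A4 β b e = 0 := by
      by_contra hcon
      have : b + 2 * e ∈ C := (hmem _).2 ⟨β, hβ, e, he, by
        rwa [show b + 2 * e - 2 * e = b by ring]⟩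
      have := hbmax _ this
      omega
    have m1 := left_mem hF hα hd h1 h3
    have m2 := right_mem hF hβ he h2 h4
    have hdis : ∀ y, y ∈ ({a - 2 * d, a} : Finset ℤ) → y ∉ ({b, b + 2 * e} : Finset ℤ) := by
      intro y hy hy'
      simp only [mem_insert, mem_singleton] at hy hy'
      omega
    have hne2 : ({a - 2 * d, a} : Finset ℤ) ≠ {b, b + 2 * e} := by
      intro h
      exact hdis a (by simp) (h ▸ (by simp : a ∈ ({a - 2 * d, a} : Finset ℤ)))
    obtain ⟨y, hy⟩ := (hF.ap _ m1 _ m2 hne2).nonempty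
    rw [mem_inter] at hy
    exact hdis y hy.1 hy.2
  have q1 := hamin c ((hmem c).2 hc)
  have q2 := hbmax c ((hmem c).2 hc)
  have q3 := hamin c' ((hmem c').2 hc')
  have q4 := hbmax c' ((hmem c').2 hc')
  omega

/-- A non-zero kernel forces a common point. -/
theorem star_of_ker (hF : Fz N F) {α : F → ℝ} (hα : Kr N α) (h0 : α ≠ 0) :
    ∃ c : ℤ, Cen N F c ∧ ∀ B ∈ F, c ∈ B := by
  obtain ⟨x, d0, hd0, hA0⟩ := kr_exists hF hα h0
  obtain ⟨c, hc⟩ : ∃ c, c = x + 2 * d0 := ⟨_, rfl⟩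
  have hA0' : A4 α (c - 2 * d0) d0 ≠ 0 := by
    rwa [hc, show x + 2 * d0 - 2 * d0 = x by ring]
  have hcen : Cen N F c := ⟨α, hα, d0, hd0, hA0'⟩
  have hex : ∃ n : ℕ, 1 ≤ n ∧ A4 α (c - 2 * (n : ℤ)) (n : ℤ) ≠ 0 := by
    refine ⟨d0.toNat, by omega, ?_⟩
    rw [Int.toNat_of_nonneg (by omega)]
    exact hA0'
  classical
  obtain ⟨n, hn⟩ : ∃ n, n = Nat.find hex := ⟨_, rfl⟩
  have hn1 := Nat.find_spec hex
  rw [← hn] at hn1
  obtain ⟨hn1, hn2⟩ := hn1
  have hmin : ∀ k : ℕ, 1 ≤ k → k < n → A4 α (c - 2 * (k : ℤ)) (k : ℤ) = 0 := by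
    intro k hk1 hk
    rw [hn] at hk
    have := Nat.find_min hex hk
    by_contra hcon
    exact this ⟨hk1, hcon⟩
  obtain ⟨d, hd⟩ : ∃ d : ℤ, d = (n : ℤ) := ⟨_, rfl⟩
  rw [← hd] at hn2
  have hd1 : 1 ≤ d := by omega
  have hK : ({c - d, c, c + d} : Finset ℤ) ∈ F := by
    have h := kr_trip hF hα (x := c - d) hd1 (by
      intro f hf
      have := hmin f.toNat (by omega) (by omega)
      rw [Int.toNat_of_nonneg (by omega)] at this
      rwa [show c - d = c - 2 * f by omega])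
    rw [show c - d + d = c by ring, show c - d + 2 * d = c + d by ring,
      show c - d - d = c - 2 * d by ring] at h
    apply mem_of_sg α
    rw [h]; exact hn2
  have hL : ({c - 2 * d, c} : Finset ℤ) ∈ F := by
    apply left_mem hF hα hd1 hn2
    by_contra hcon
    have : Cen N F (c - 2 * d) := ⟨α, hα, d, hd1, by
      rwa [show c - 2 * d - 2 * d = c - 4 * d by ring]⟩
    have := one_centre hF this hcen
    omega
  have hR : ({c, c + 2 * d} : Finset ℤ) ∈ F := by
    apply right_mem hF hα hd1 hn2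
    by_contra hcon
    have : Cen N F (c + 2 * d) := ⟨α, hα, d, hd1, by
      rwa [show c + 2 * d - 2 * d = c by ring]⟩
    have := one_centre hF this hcen
    omega
  have hT : apz (c - 2 * d) d 5 ∈ F := A4_mem hF hα hd1 hn2
  refine ⟨c, hcen, fun B hB => ?_⟩
  by_contra hcB
  have g1 : c - 2 * d ∈ B := by
    have hne : B ≠ {c - 2 * d, c} := fun h => hcB (by rw [h]; simp)
    obtain ⟨y, hy⟩ := (hF.ap B hB _ hL hne).nonempty
    rw [mem_inter] at hy
    obtain ⟨hy1, hy2⟩ := hy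
    simp only [mem_insert, mem_singleton] at hy2
    rcases hy2 with rfl | rfl
    · exact hy1
    · exact absurd hy1 hcB
  have g2 : c + 2 * d ∈ B := by
    have hne : B ≠ {c, c + 2 * d} := fun h => hcB (by rw [h]; simp)
    obtain ⟨y, hy⟩ := (hF.ap B hB _ hR hne).nonempty
    rw [mem_inter] at hy
    obtain ⟨hy1, hy2⟩ := hy
    simp only [mem_insert, mem_singleton] at hy2
    rcases hy2 with rfl | rfl
    · exact absurd hy1 hcB
    · exact hy1
  have g3 : c - d ∈ B ∨ c + d ∈ B := by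
    have hne : B ≠ {c - d, c, c + d} := fun h => hcB (by rw [h]; simp)
    obtain ⟨y, hy⟩ := (hF.ap B hB _ hK hne).nonempty
    rw [mem_inter] at hy
    obtain ⟨hy1, hy2⟩ := hy
    simp only [mem_insert, mem_singleton] at hy2
    rcases hy2 with rfl | rfl | rfl
    · exact Or.inl hy1
    · exact absurd hy1 hcB
    · exact Or.inr hy1
  have hcT : c ∈ apz (c - 2 * d) d 5 := mem_apz.2 ⟨2, by norm_num, by push_cast; ring⟩
  have hneT : B ≠ apz (c - 2 * d) d 5 := fun h => hcB (by rw [h]; exact hcT)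
  have hX := hF.ap B hB _ hT hneT
  have t0 : c - 2 * d ∈ B ∩ apz (c - 2 * d) d 5 :=
    mem_inter.2 ⟨g1, mem_apz.2 ⟨0, by norm_num, by push_cast; ring⟩⟩
  have t4 : c + 2 * d ∈ B ∩ apz (c - 2 * d) d 5 :=
    mem_inter.2 ⟨g2, mem_apz.2 ⟨4, by norm_num, by push_cast; ring⟩⟩
  have hfin : c ∈ B ∩ apz (c - 2 * d) d 5 := by
    rcases g3 with g | g
    · have t1 : c - d ∈ B ∩ apz (c - 2 * d) d 5 :=
        mem_inter.2 ⟨g, mem_apz.2 ⟨1, by norm_num, by push_cast; ring⟩⟩
      have := closure_ap hX (u := c - 2 * d) (g := d) (k := 4) (j := 2) t0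
        (by rwa [show c - 2 * d + d = c - d by ring])
        (by rwa [show c - 2 * d + 4 * d = c + 2 * d by ring]) (by norm_num) (by norm_num)
      rwa [show c - 2 * d + 2 * d = c by ring] at this
    · have t3 : c + d ∈ B ∩ apz (c - 2 * d) d 5 :=
        mem_inter.2 ⟨g, mem_apz.2 ⟨3, by norm_num, by push_cast; ring⟩⟩
      have := closure_ap hX (u := c + 2 * d) (g := -d) (k := 4) (j := 2) t4
        (by rwa [show c + 2 * d + -d = c + d by ring])
        (by rwa [show c + 2 * d + 4 * -d = c - 2 * d by ring]) (by norm_num) (by norm_num)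
      rwa [show c + 2 * d + 2 * -d = c by ring] at this
  exact hcB (mem_inter.1 hfin).1

/-- The functional as a linear map. -/
noncomputable def sgL (F : Finset (Finset ℤ)) (Q : Finset ℤ → Prop) : (F → ℝ) →ₗ[ℝ] ℝ :=
  ∑ i : F, ind (Q i.1) • LinearMap.proj i

theorem sgL_apply (Q : Finset ℤ → Prop) (α : F → ℝ) : sgL F Q α = sg α Q := by
  unfold sgL sg
  rw [LinearMap.sum_apply]
  apply sum_congr rfl
  intro i _
  rw [LinearMap.smul_apply, LinearMap.proj_apply, smul_eq_mul, mul_comm]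

/-- All pair functionals. -/
noncomputable def Lp (N : ℕ) (F : Finset (Finset ℤ)) : (F → ℝ) →ₗ[ℝ] (Pall N → ℝ) :=
  LinearMap.pi (fun e => sgL F (fun A => e.1 ⊆ A))

theorem mem_ker {α : F → ℝ} : α ∈ LinearMap.ker (Lp N F) ↔ Kr N α := by
  rw [LinearMap.mem_ker]
  constructor
  · intro h e he
    have h1 := congrFun h ⟨e, he⟩
    unfold Lp at h1
    rw [LinearMap.pi_apply, sgL_apply] at h1
    exact h1
  · intro h
    funext e
    unfold Lp
    rw [LinearMap.pi_apply, sgL_apply]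
    exact h e.1 e.2

theorem card_le_ker :
    F.card ≤ N.choose 2 + 1 + Module.finrank ℝ (LinearMap.ker (Lp N F)) := by
  have h1 := LinearMap.finrank_range_add_finrank_ker (Lp N F)
  have h2 : Module.finrank ℝ (F → ℝ) = F.card := by
    rw [Module.finrank_fintype_fun_eq_card, Fintype.card_coe]
  have h3 : Module.finrank ℝ (LinearMap.range (Lp N F)) ≤ N.choose 2 + 1 := by
    have h4 := Submodule.finrank_le (LinearMap.range (Lp N F))
    rw [Module.finrank_fintype_fun_eq_card, Fintype.card_coe, card_Pall] at h4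
    exact h4
  omega

/-- FAMILIES WITHOUT A COMMON POINT. -/
theorem card_le_of_not_star (hF : Fz N F) (hs : ¬ ∃ x : ℤ, ∀ A ∈ F, x ∈ A) :
    F.card ≤ N.choose 2 + 1 := by
  have h1 := card_le_ker (N := N) (F := F)
  have h2 : LinearMap.ker (Lp N F) = ⊥ := by
    rw [Submodule.eq_bot_iff]
    intro α hα
    by_contra hcon
    obtain ⟨c, -, hc⟩ := star_of_ker hF (mem_ker.1 hα) hcon
    exact hs ⟨c, hc⟩
  rw [h2, finrank_bot] at h1
  exact h1

/-- ALL FAMILIES. -/
theorem card_le (hF : Fz N F) : F.card ≤ N.choose 2 + 1 + (N - 1) / 4 := by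
  have h1 := card_le_ker (N := N) (F := F)
  have h2 : Module.finrank ℝ (LinearMap.ker (Lp N F)) ≤ (N - 1) / 4 := by
    by_cases hker : ∃ α : F → ℝ, Kr N α ∧ α ≠ 0
    · obtain ⟨α, hα, h0⟩ := hker
      obtain ⟨c, hcen, -⟩ := star_of_ker hF hα h0
      obtain ⟨Φ, hΦ⟩ : ∃ Φ : (LinearMap.ker (Lp N F)) →ₗ[ℝ] (Fin ((N - 1) / 4) → ℝ),
          Φ = (LinearMap.pi (fun j : Fin ((N - 1) / 4) => sgL F (fun A =>
            In 4 A (c - 2 * ((j : ℕ) + 1 : ℤ)) ((j : ℕ) + 1 : ℤ)))).comp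
            (LinearMap.ker (Lp N F)).subtype := ⟨_, rfl⟩
      have hinj : Function.Injective Φ := by
        rw [← LinearMap.ker_eq_bot, Submodule.eq_bot_iff]
        intro β hβ
        by_contra hcon
        have hβ0 : (β : F → ℝ) ≠ 0 := fun h => hcon (Subtype.ext h)
        have hβK : Kr N (β : F → ℝ) := mem_ker.1 β.2
        obtain ⟨x, d, hd, hA⟩ := kr_exists hF hβK hβ0
        have hc2 : x + 2 * d = c := one_centre hF ⟨β, hβK, d, hd, by
          rwa [show x + 2 * d - 2 * d = x by ring]⟩ hcen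
        have hr := A4_range hF hA
        have hj : d.toNat - 1 < (N - 1) / 4 := by omega
        have h5 := congrFun (LinearMap.mem_ker.1 hβ) ⟨d.toNat - 1, hj⟩
        rw [hΦ, LinearMap.comp_apply, LinearMap.pi_apply, sgL_apply] at h5
        apply hA
        unfold A4
        have h6 : (((d.toNat - 1 : ℕ) : ℤ) + 1) = d := by omega
        simp only [h6, Submodule.subtype_apply, Pi.zero_apply] at h5
        rw [show c - 2 * d = x by omega] at h5
        exact h5
      have h3 := LinearMap.finrank_le_finrank_of_injective hinj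
      rwa [Module.finrank_fintype_fun_eq_card, Fintype.card_fin] at h3
    · have h3 : LinearMap.ker (Lp N F) = ⊥ := by
        rw [Submodule.eq_bot_iff]
        intro α hα
        by_contra hcon
        exact hker ⟨α, mem_ker.1 hα, hcon⟩
      rw [h3, finrank_bot]
      exact Nat.zero_le _
  omega

end Pool.Agent.Work.MP_1d0aa8_co.SF
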