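import Pool.Agent.Work.MP_1d0aa8_co.SF.APc

/-!
# MP_1d0aa8_co, short intersections: the quadratic identity
-/

set_option autoImplicit false

namespace Pool.Agent.Work.MP_1d0aa8_co.SF

open Finset
open scoped Classical

/-- A family on `[N]` with pairwise AP intersections such that no 7-term progression in a member
has its first six or its last six terms in another member. -/
structure Fz (N : ℕ) (F : Finset (Finset ℤ)) : Prop where
  sub : ∀ A ∈ F, A ⊆ Icc 1 (N : ℤ)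
  ap : ∀ A ∈ F, ∀ B ∈ F, A ≠ B → IsAP (A ∩ B)
  ok : ∀ A ∈ F, ∀ B ∈ F, A ≠ B → ∀ x d : ℤ, 1 ≤ d → In 6 A x d →
    ¬ In 5 B x d ∧ ¬ In 5 B (x + d) d

/-- The six term progression `x, …, x + 5 d` lies in two different members. -/
def Rs (F : Finset (Finset ℤ)) (x d : ℤ) : Prop :=
  ∃ A ∈ F, ∃ B ∈ F, A ≠ B ∧ In 5 A x d ∧ In 5 B x d

theorem Fz.Ok {N : ℕ} {F : Finset (Finset ℤ)} (hF : Fz N F) {A : Finset ℤ} (hA : A ∈ F) :
    Ok (Rs F) A := by
  intro x d hd h6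
  constructor
  · rintro ⟨B, hB, C, hC, hne, h1, h2⟩
    by_cases hAB : A = B
    · exact (hF.ok A hA C hC (fun h => hne (hAB.symm.trans h)) x d hd h6).1 h2
    · exact (hF.ok A hA B hB hAB x d hd h6).1 h1
  · rintro ⟨B, hB, C, hC, hne, h1, h2⟩
    by_cases hAB : A = B
    · exact (hF.ok A hA C hC (fun h => hne (hAB.symm.trans h)) x d hd h6).2 h2
    · exact (hF.ok A hA B hB hAB x d hd h6).2 h1

theorem Fz.card_inter {N : ℕ} {F : Finset (Finset ℤ)} (hF : Fz N F) {A B : Finset ℤ}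
    (hA : A ∈ F) (hB : B ∈ F) (hne : A ≠ B) : (A ∩ B).card ≤ 6 := by
  obtain ⟨a, d, m, hd, hm, hE⟩ := hF.ap A hA B hB hne
  rw [hE, card_apz hd]
  by_contra hcon
  have h1 : ∀ i : ℕ, i ≤ 6 → a + (i : ℤ) * d ∈ A ∩ B := by
    intro i hi
    rw [hE, mem_apz]
    exact ⟨i, by omega, rfl⟩
  exact (hF.ok A hA B hB hne a d hd (fun i hi => (mem_inter.1 (h1 i hi)).1)).1
    (fun i hi => (mem_inter.1 (h1 i (by omega))).2)

/-- Indicator of a proposition. -/
noncomputable def ind (Q : Prop) : ℝ := @ite ℝ Q (Classical.propDecidable Q) 1 0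

theorem ind_pos {Q : Prop} (h : Q) : ind Q = 1 := by unfold ind; exact if_pos h

theorem ind_neg {Q : Prop} (h : ¬ Q) : ind Q = 0 := by unfold ind; exact if_neg h

theorem ind_and (P Q : Prop) : ind (P ∧ Q) = ind P * ind Q := by
  by_cases hP : P
  · by_cases hQ : Q
    · rw [ind_pos hP, ind_pos hQ, ind_pos ⟨hP, hQ⟩]; norm_num
    · rw [ind_neg hQ, ind_neg (fun h => hQ h.2)]; norm_num
  · rw [ind_neg hP, ind_neg (fun h => hP h.1)]; norm_num

theorem ind_congr {P Q : Prop} (h : P ↔ Q) : ind P = ind Q := by rw [propext h]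

theorem sum_ind {τ : Type*} (T : Finset τ) (Q : τ → Prop) [DecidablePred Q] :
    ∑ t ∈ T, ind (Q t) = ((T.filter Q).card : ℝ) := by
  rw [card_filter]
  push_cast
  apply sum_congr rfl
  intro t _
  by_cases h : Q t
  · rw [ind_pos h, if_pos h]
  · rw [ind_neg h, if_neg h]

variable {F : Finset (Finset ℤ)}

/-- The functional attached to a property of sets. -/
noncomputable def sg (α : F → ℝ) (Q : Finset ℤ → Prop) : ℝ := ∑ i : F, α i * ind (Q i.1)

theorem sq_sum {τ : Type*} (α : F → ℝ) (T : Finset τ) (R : τ → Finset ℤ → Prop)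
    (hR : ∀ t A B, R t (A ∩ B) ↔ R t A ∧ R t B) :
    ∑ t ∈ T, (sg α (R t)) ^ 2 =
      ∑ i : F, ∑ j : F, α i * α j * ∑ t ∈ T, ind (R t (i.1 ∩ j.1)) := by
  have h1 : ∀ t, (sg α (R t)) ^ 2 = ∑ i : F, ∑ j : F, α i * α j * ind (R t (i.1 ∩ j.1)) := by
    intro t
    unfold sg
    rw [sq, sum_mul_sum]
    apply sum_congr rfl
    intro i _
    apply sum_congr rfl
    intro j _
    rw [ind_congr (hR t i.1 j.1), ind_and]
    ring
  rw [sum_congr rfl (fun t _ => h1 t), sum_comm]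
  apply sum_congr rfl
  intro i _
  rw [sum_comm]
  apply sum_congr rfl
  intro j _
  rw [mul_sum]

/-- The test sets: the empty set and all pairs. -/
noncomputable def Pall (N : ℕ) : Finset (Finset ℤ) := insert ∅ ((Icc (1 : ℤ) N).powersetCard 2)

theorem card_Pall (N : ℕ) : (Pall N).card = N.choose 2 + 1 := by
  unfold Pall
  rw [card_insert_of_notMem, card_powersetCard]
  · simp
  · rw [mem_powersetCard]
    simp

theorem cnt_pairs {N : ℕ} {X : Finset ℤ} (hX : X ⊆ Icc 1 (N : ℤ)) :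
    ∑ e ∈ Pall N, ind (e ⊆ X) = 1 + (X.card.choose 2 : ℝ) := by
  rw [sum_ind]
  have h : (Pall N).filter (fun e => e ⊆ X) = insert ∅ (X.powersetCard 2) := by
    ext e
    unfold Pall
    rw [mem_filter, mem_insert, mem_insert, mem_powersetCard, mem_powersetCard]
    constructor
    · rintro ⟨rfl | ⟨h1, h2⟩, h3⟩
      · left; rfl
      · right; exact ⟨h3, h2⟩
    · rintro (rfl | ⟨h1, h2⟩)
      · exact ⟨Or.inl rfl, empty_subset _⟩
      · exact ⟨Or.inr ⟨h1.trans hX, h2⟩, h1⟩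
  rw [h, card_insert_of_notMem, card_powersetCard]
  · push_cast; ring
  · rw [mem_powersetCard]
    simp

theorem cnt_points {N : ℕ} {X : Finset ℤ} (hX : X ⊆ Icc 1 (N : ℤ)) :
    ∑ x ∈ Icc 1 (N : ℤ), ind (x ∈ X) = (X.card : ℝ) := by
  rw [sum_ind]
  congr 2
  ext x
  rw [mem_filter]
  exact ⟨fun h => h.2, fun h => ⟨hX h, h⟩⟩

/-- The box of all (first term, difference). -/
noncomputable def Box (N : ℕ) : Finset (ℤ × ℤ) := (Icc 1 (N : ℤ)) ×ˢ (Icc 1 (N : ℤ))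

theorem mem_box {N k : ℕ} (hk : 1 ≤ k) {X : Finset ℤ} (hX : X ⊆ Icc 1 (N : ℤ)) {x d : ℤ}
    (hd : 1 ≤ d) (h : In k X x d) : (x, d) ∈ Box N := by
  have h3 := hX (h 0 (Nat.zero_le k))
  have h4 := hX (h 1 hk)
  rw [mem_Icc] at h3 h4
  push_cast at h3 h4
  unfold Box
  rw [mem_product, mem_Icc, mem_Icc]
  exact ⟨⟨by simp only; omega, by simp only; omega⟩, hd, by simp only; omega⟩

theorem cnt_box (R : ℤ → ℤ → Prop) {N k : ℕ} (hk : 1 ≤ k) {X : Finset ℤ}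
    (hX : X ⊆ Icc 1 (N : ℤ)) :
    ∑ p ∈ (Box N).filter (fun p => R p.1 p.2), ind (In k X p.1 p.2) =
      ((P R k X).card : ℝ) := by
  rw [sum_ind]
  congr 2
  ext p
  rw [mem_filter, mem_filter, mem_P hk]
  constructor
  · rintro ⟨⟨h1, h2⟩, h3⟩
    unfold Box at h1
    rw [mem_product, mem_Icc, mem_Icc] at h1
    exact ⟨h1.2.1, h3, h2⟩
  · rintro ⟨h1, h2, h3⟩
    exact ⟨⟨mem_box hk hX h1 h2, h3⟩, h2⟩

theorem cnt_box' {N k : ℕ} (hk : 1 ≤ k) {X : Finset ℤ} (hX : X ⊆ Icc 1 (N : ℤ)) :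
    ∑ p ∈ Box N, ind (In k X p.1 p.2) = ((P Tr k X).card : ℝ) := by
  rw [← cnt_box Tr hk hX]
  apply sum_congr _ (fun _ _ => rfl)
  ext p
  rw [mem_filter]
  exact ⟨fun h => ⟨h, trivial⟩, fun h => h.1⟩

theorem In_inter {k : ℕ} {A B : Finset ℤ} {x d : ℤ} :
    In k (A ∩ B) x d ↔ In k A x d ∧ In k B x d := by
  constructor
  · intro h
    exact ⟨fun i hi => (mem_inter.1 (h i hi)).1, fun i hi => (mem_inter.1 (h i hi)).2⟩
  · rintro ⟨h1, h2⟩ i hi
    exact mem_inter.2 ⟨h1 i hi, h2 i hi⟩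

/-- The diagonal term. -/
noncomputable def Dr (R : ℤ → ℤ → Prop) (A : Finset ℤ) : ℝ :=
  1 + (A.card.choose 2 : ℝ) - A.card - tot R A

theorem Dr_eq (R : ℤ → ℤ → Prop) (A : Finset ℤ) :
    2 * Dr R A = ((A.card : ℝ) - 1) * ((A.card : ℝ) - 2) - 2 * tot R A := by
  unfold Dr
  rw [Nat.cast_choose_two]
  ring

theorem Dr_nonneg {R : ℤ → ℤ → Prop} {A : Finset ℤ} (hA : Ok R A) : 0 ≤ Dr R A := by
  have h1 := Dr_eq R A
  have h2 := tot_le hA
  have h3 : 2 * (tot R A : ℝ) ≤ ((A.card : ℝ) - 1) * ((A.card : ℝ) - 2) := by exact_mod_cast h2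
  linarith

theorem Dr_pos {R : ℤ → ℤ → Prop} {A : Finset ℤ} (hA : Ok R A)
    (h : ¬ (IsAP A ∧ A.card ≤ 6)) : 0 < Dr R A := by
  have h1 := Dr_eq R A
  have h2 := tot_lt hA h
  have h3 : 2 * (tot R A : ℝ) < ((A.card : ℝ) - 1) * ((A.card : ℝ) - 2) := by exact_mod_cast h2
  linarith

theorem Dr_six {R : ℤ → ℤ → Prop} {a d : ℤ} (hd : 1 ≤ d) (hR : ¬ R a d) :
    0 < Dr R (apz a d 6) := by
  have h1 := Dr_eq R (apz a d 6)
  have h2 := tot_six hd hR
  have h3 : (tot R (apz a d 6) : ℝ) ≤ 9 := by exact_mod_cast h2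
  rw [card_apz hd] at h1
  push_cast at h1
  linarith

theorem Dr_zero {N : ℕ} (hF : Fz N F) {A B : Finset ℤ} (hA : A ∈ F) (hB : B ∈ F)
    (hne : A ≠ B) : Dr (Rs F) (A ∩ B) = 0 := by
  have h1 := Dr_eq (Rs F) (A ∩ B)
  have h2 := tot_full (R := Rs F) (hF.ap A hA B hB hne) (hF.card_inter hA hB hne)
    (fun x e _ h => ⟨A, hA, B, hB, hne, (In_inter.1 h).1, (In_inter.1 h).2⟩)
  have h3 : 2 * (tot (Rs F) (A ∩ B) : ℝ) =
      (((A ∩ B).card : ℝ) - 1) * (((A ∩ B).card : ℝ) - 2) := by exact_mod_cast h2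
  linarith

/-- THE IDENTITY. -/
theorem quad {N : ℕ} (hF : Fz N F) (α : F → ℝ) :
    ∑ e ∈ Pall N, (sg α (fun A => e ⊆ A)) ^ 2 =
      ∑ x ∈ Icc 1 (N : ℤ), (sg α (fun A => x ∈ A)) ^ 2 +
      ∑ p ∈ Box N, (sg α (fun A => In 2 A p.1 p.2)) ^ 2 +
      ∑ p ∈ Box N, (sg α (fun A => In 3 A p.1 p.2)) ^ 2 +
      ∑ p ∈ (Box N).filter (fun p => Rs F p.1 p.2), (sg α (fun A => In 5 A p.1 p.2)) ^ 2 +
      ∑ i : F, α i ^ 2 * Dr (Rs F) i.1 := by
  have e1 := sq_sum α (Pall N) (fun e A => e ⊆ A) (fun e A B => subset_inter_iff)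
  have e2 := sq_sum α (Icc 1 (N : ℤ)) (fun x A => x ∈ A) (fun e A B => mem_inter)
  have e3 := sq_sum α (Box N) (fun p A => In 2 A p.1 p.2) (fun p A B => In_inter)
  have e4 := sq_sum α (Box N) (fun p A => In 3 A p.1 p.2) (fun p A B => In_inter)
  have e5 := sq_sum α ((Box N).filter (fun p => Rs F p.1 p.2)) (fun p A => In 5 A p.1 p.2)
    (fun p A B => In_inter)
  rw [e1, e2, e3, e4, e5]
  have hdiag : ∑ i : F, α i ^ 2 * Dr (Rs F) i.1 =
      ∑ i : F, ∑ j : F, α i * α j * Dr (Rs F) (i.1 ∩ j.1) := by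
    apply sum_congr rfl
    intro i _
    rw [Finset.sum_eq_single i]
    · rw [inter_self]; ring
    · intro j _ hj
      have hne : i.1 ≠ j.1 := fun h => hj (Subtype.ext h.symm)
      rw [Dr_zero hF i.2 j.2 hne, mul_zero]
    · intro h; exact absurd (mem_univ i) h
  rw [hdiag, ← sum_add_distrib, ← sum_add_distrib, ← sum_add_distrib, ← sum_add_distrib]
  apply sum_congr rfl
  intro i _
  rw [← sum_add_distrib, ← sum_add_distrib, ← sum_add_distrib, ← sum_add_distrib]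
  apply sum_congr rfl
  intro j _
  have hX : i.1 ∩ j.1 ⊆ Icc 1 (N : ℤ) := inter_subset_left.trans (hF.sub i.1 i.2)
  rw [cnt_pairs hX, cnt_points hX, cnt_box' (by norm_num) hX, cnt_box' (by norm_num) hX,
    cnt_box (Rs F) (by norm_num) hX]
  unfold Dr tot
  push_cast
  ring

end Pool.Agent.Work.MP_1d0aa8_co.SF
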